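import Pool.Agent.Helper381.Main

/-! Isolated common fixed points of commuting involutive isometries and mod 2 Betti numbers. -/

set_option autoImplicit false

namespace Pool.Agent.X178.Two

open Metric Set Module Pool.Agent.Helper381

universe u v w

variable {M : Type u} {E : Type v} [MetricSpace M] [NormedAddCommGroup E] [NormedSpace ℝ E]
  {R : ℝ} (G : Geo M E R)

include G

/-- common fixed points of isometries near an isolated common fixed point -/
theorem isolated_uniform' (gs : List (M ≃ᵢ M)) {q : M} (hsq : ∀ g ∈ gs, g q = q)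
    (hiso : ∃ ε > 0, ∀ y, dist y q < ε → (∀ g ∈ gs, g y = y) → y = q)
    {x : M} (hx : dist x q < R) (hsx : ∀ g ∈ gs, g x = x) : x = q := by
  obtain ⟨ε, hε, hiso⟩ := hiso
  have key : ∀ n : ℕ, ∃ y, (∀ g ∈ gs, g y = y) ∧ dist y q = dist x q / 2 ^ n := by
    intro n
    induction n with
    | zero => exact ⟨x, hsx, by simp⟩
    | succ n ih =>
      obtain ⟨y, hy, hyq⟩ := ih
      obtain ⟨m, hm1, hm2⟩ := G.midpt y q
      have hlt : dist y q < R := by
        rw [hyq]
        refine lt_of_le_of_lt ?_ hx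
        apply div_le_self dist_nonneg
        exact one_le_pow₀ (by norm_num)
      refine ⟨m, ?_, ?_⟩
      · intro g hg
        apply G.midpt_unique hlt _ _ hm1 hm2
        · calc dist y (g m) = dist (g y) (g m) := by rw [hy g hg]
            _ = dist y m := g.isometry.dist_eq _ _
            _ = _ := hm1
        · calc dist (g m) q = dist (g m) (g q) := by rw [hsq g hg]
            _ = dist m q := g.isometry.dist_eq _ _
            _ = _ := hm2
      · rw [hm2, hyq, pow_succ]
        field_simp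
  by_contra hne
  have hpos : 0 < dist x q := dist_pos.mpr hne
  obtain ⟨n, hn⟩ := exists_pow_lt_of_lt_one (show 0 < ε / dist x q by positivity)
    (show (1 / 2 : ℝ) < 1 by norm_num)
  obtain ⟨y, hy, hyq⟩ := key n
  have h1 : dist y q < ε := by
    rw [hyq]
    have : dist x q / 2 ^ n = (1 / 2) ^ n * dist x q := by
      rw [one_div, inv_pow]; field_simp
    rw [this]
    calc (1 / 2) ^ n * dist x q < ε / dist x q * dist x q := by
          apply mul_lt_mul_of_pos_right hn hpos
      _ = ε := by field_simp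
  have h2 := hiso y h1 hy
  rw [h2, dist_self] at hyq
  have : 0 < dist x q / 2 ^ n := by positivity
  linarith

/-- Smith inequality: isolated common fixed points of commuting involutive isometries. -/
theorem card_le_isolated [CompactSpace M] [Nonempty M] (gs : List (M ≃ᵢ M))
    (hinv : ∀ g ∈ gs, ∀ x, g (g x) = x)
    (hcomm : ∀ g ∈ gs, ∀ h ∈ gs, ∀ x, g (h x) = h (g x)) (A : Finset M)
    (hfix : ∀ g ∈ gs, ∀ a ∈ A, g a = a)
    (hisol : ∀ a ∈ A, ∃ ε > 0, ∀ y, dist y a < ε → (∀ g ∈ gs, g y = y) → y = a) :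
    (A.card : ℕ∞) ≤ totalBetti (ZMod 2) M := by
  classical
  have : Fact (Nat.Prime 2) := ⟨Nat.prime_two⟩
  have hR := G.Rpos
  obtain ⟨F, hF, hFg⟩ := exists_net (M := M) gs hinv hcomm (R / 4) (by linarith)
  have hρR : 4 * (R / 4) ≤ R := by linarith
  set ρ := R / 4 with hρ
  have hQ := Fam_finite F ρ
  obtain ⟨a1, N1, b1⟩ := G.betti_finite (ZMod 2)
  set N := max (N1) (max (Fam F ρ).ncard 1) with hN
  have hN1 : N1 ≤ N := le_max_left _ _
  have hN2 : (Fam F ρ).ncard ≤ N := le_trans (le_max_left _ _) (le_max_right _ _)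
  have hN3 : 1 ≤ N := le_trans (le_max_right _ _) (le_max_right _ _)
  rw [totalBetti_eq N a1 (fun n hn => b1 n (hN1.trans hn)), Nat.cast_le]
  have e1 : ∀ n, finrank (ZMod 2) (SingCoh (ZMod 2) M n) =
      finrank (ZMod 2) (OrdCoh (ZMod 2) (Fam F ρ) n) := by
    intro n
    obtain ⟨e⟩ := G.nerve hρR hF (ZMod 2) n
    exact LinearEquiv.finrank_eq e
  simp only [e1]
  have hgood := goodList F ρ gs hinv hcomm hFg
  have h1 := smith_list hQ (gs.map imS) hgood N hN2
  refine le_trans ?_ h1
  have h2 : finrank (ZMod 2) (OrdCoh (ZMod 2) (fixS (Fam F ρ) (gs.map imS)) 0) ≤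
      ∑ n ∈ Finset.range N,
        finrank (ZMod 2) (OrdCoh (ZMod 2) (fixS (Fam F ρ) (gs.map imS)) n) :=
    Finset.single_le_sum (f := fun n =>
      finrank (ZMod 2) (OrdCoh (ZMod 2) (fixS (Fam F ρ) (gs.map imS)) n))
      (fun _ _ => Nat.zero_le _) (Finset.mem_range.mpr hN3)
  refine le_trans ?_ h2
  have hiso : ∀ a ∈ A, ∀ y, dist y a < R → (∀ g ∈ gs, g y = y) → y = a := by
    intro a ha y hy hg
    exact isolated_uniform' G gs (fun g hg => hfix g hg a ha) (hisol a ha) hy hg
  have h3 := components_le (Q := fixS (Fam F ρ) (gs.map imS))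
    (hQ.subset (fixS_subset _ _)) (ι := A) (fun a => Jm F ρ {a.1})
    (fun a => Jm_fixS F ρ hF gs hinv hFg a.1 (fun g hg => hfix g hg a.1 a.2))
    (fun a C => if a.1 ∈ C then 1 else 0) ?_ ?_
  · rwa [Fintype.card_coe] at h3
  · intro a C hC C' hC' hle
    have key : a.1 ∈ C' → a.1 ∈ C := by
      intro haC'
      obtain ⟨hCF, hCg⟩ := (mem_fixS F ρ gs C).mp hC
      obtain ⟨y, hyC, hy⟩ := G.fam_fixed hρR hCF
      have hyg : ∀ g ∈ gs, g y = y := fun g hg =>
        hy g (net_iff F g (hinv g hg) (hFg g hg)) (hCg g hg)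
      have hd := Fam_dist ((mem_fixS F ρ gs C').mp hC').1 (hle hyC) haC'
      have := hiso a.1 a.2 y (by linarith) hyg
      rw [← this]; exact hyC
    by_cases h : a.1 ∈ C
    · have h' : a.1 ∈ C' := hle h
      simp [h, h']
    · have h' : a.1 ∉ C' := fun h' => h (key h')
      simp [h, h']
  · intro a b
    by_cases hab : a = b
    · subst hab
      have : a.1 ∈ Jm F ρ {a.1} := subset_Jm F ρ _ rfl
      simp [this]
    · have : a.1 ∉ Jm F ρ {b.1} := by
        intro h
        apply hab
        apply Subtype.ext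
        have hJ := Jm_fixS F ρ hF gs hinv hFg b.1 (fun g hg => hfix g hg b.1 b.2)
        have hd := Fam_dist ((mem_fixS F ρ gs _).mp hJ).1 h
          (subset_Jm F ρ _ (rfl : b.1 ∈ ({b.1} : Set M)))
        exact hiso b.1 b.2 a.1 (by linarith) (fun g hg => hfix g hg a.1 a.2)
      simp [this, hab]

end Pool.Agent.X178.Two
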