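import Pool.Agent.X178.Two.Ten

/-! Antipodal sets in the space of unit rank one tensors have at most eight elements. -/

set_option autoImplicit false

open Set Matrix
open scoped RealInnerProductSpace

noncomputable section

namespace Pool.Agent.X178.Two

section Vec

variable {n : ℕ}

lemma inner_smul_self {u v : EE n} (hu : ‖u‖ = 1) (hv : ‖v‖ = 1) (h : ⟪u, v⟫ ^ 2 = 1) :
    u = ⟪u, v⟫ • v := by
  rw [← sub_eq_zero, ← norm_eq_zero, ← sq_eq_zero_iff]
  rw [norm_sub_sq_real, norm_smul, hu, hv, inner_smul_right, Real.norm_eq_abs, mul_one, sq_abs]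
  linarith

lemma par_trans {u v w : EE n} (hu : ‖u‖ = 1) (hv : ‖v‖ = 1) (h : ⟪u, v⟫ ^ 2 = 1)
    (h' : ⟪v, w⟫ ^ 2 = 1) : ⟪u, w⟫ ^ 2 = 1 := by
  rw [inner_smul_self hu hv h, real_inner_smul_left, mul_pow, h, h', one_mul]

lemma not_orth {m : ℕ} (hm : n < m) (u : Fin m → EE n) (hu : ∀ i, ‖u i‖ = 1)
    (ho : ∀ i j, i ≠ j → ⟪u i, u j⟫ = 0) : False := by
  have h : Orthonormal ℝ u := ⟨hu, fun i j hij => ho i j hij⟩
  have h2 := h.linearIndependent.fintype_card_le_finrank
  rw [finrank_euclideanSpace_fin, Fintype.card_fin] at h2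
  omega

end Vec

/-- the alternatives for two points of an antipodal set -/
lemma fix_rel {x x' : EE 2} {y y' z z' : EE 3} (hx : ‖x‖ = 1) (hy : ‖y‖ = 1) (hz : ‖z‖ = 1)
    (hx' : ‖x'‖ = 1) (hy' : ‖y'‖ = 1) (hz' : ‖z'‖ = 1)
    (h : op (refl x hx) (refl y hy) (refl z hz) (ten x' y' z') = ten x' y' z') :
    (⟪x, x'⟫ ^ 2 = 1 ∧ ⟪y, y'⟫ ^ 2 = 1 ∧ ⟪z, z'⟫ ^ 2 = 1) ∨
    (⟪x, x'⟫ ^ 2 = 1 ∧ ⟪y, y'⟫ = 0 ∧ ⟪z, z'⟫ = 0) ∨
    (⟪x, x'⟫ = 0 ∧ ⟪y, y'⟫ ^ 2 = 1 ∧ ⟪z, z'⟫ = 0) ∨
    (⟪x, x'⟫ = 0 ∧ ⟪y, y'⟫ = 0 ∧ ⟪z, z'⟫ ^ 2 = 1) := by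
  rw [op_ten, mv_refl, mv_refl, mv_refl] at h
  have s1 : ∀ {m : ℕ} {u : EE m}, ‖u‖ = 1 → ⟪u, u⟫ = 1 := by
    intro m u hu
    rw [real_inner_self_eq_norm_sq, hu]; norm_num
  have hxx := s1 hx
  have hyy := s1 hy
  have hzz := s1 hz
  have hxx' := s1 hx'
  have hyy' := s1 hy'
  have hzz' := s1 hz'
  set α := ⟪x, x'⟫ with hα
  set β := ⟪y, y'⟫ with hβ
  set γ := ⟪z, z'⟫ with hγ
  have hα' : ⟪x', x⟫ = α := by rw [real_inner_comm]
  have hβ' : ⟪y', y⟫ = β := by rw [real_inner_comm]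
  have hγ' : ⟪z', z⟫ = γ := by rw [real_inner_comm]
  have e1 := congrArg (fun w => ⟪w, ten x' y z⟫) h
  have e2 := congrArg (fun w => ⟪w, ten x y' z⟫) h
  have e3 := congrArg (fun w => ⟪w, ten x y z'⟫) h
  have e4 := congrArg (fun w => ⟪w, ten x' y' z'⟫) h
  simp only [inner_ten, inner_sub_left, real_inner_smul_left, hxx, hyy, hzz, hxx', hyy', hzz',
    hα', hβ', hγ', ← hα, ← hβ, ← hγ] at e1 e2 e3 e4
  have f1 : (α ^ 2 - 1) * (β * γ) = 0 := by linear_combination e1 / 2
  have f2 : (β ^ 2 - 1) * (α * γ) = 0 := by linear_combination e2 / 2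
  have f3 : (γ ^ 2 - 1) * (α * β) = 0 := by linear_combination e3 / 2
  by_cases ha : α = 0
  · rw [ha] at f1 e4
    have : β * γ = 0 := by linear_combination -f1
    rcases mul_eq_zero.mp this with hb | hc
    · rw [hb] at e4
      right; right; right
      exact ⟨ha, hb, by linear_combination e4 / 2⟩
    · rw [hc] at e4
      right; right; left
      exact ⟨ha, by linear_combination e4 / 2, hc⟩
  · by_cases hb : β = 0
    · rw [hb] at f2 e4
      have : α * γ = 0 := by linear_combination -f2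
      have hc : γ = 0 := by
        rcases mul_eq_zero.mp this with h | h
        · exact absurd h ha
        · exact h
      rw [hc] at e4
      right; left
      exact ⟨by linear_combination e4 / 2, hb, hc⟩
    · by_cases hc : γ = 0
      · rw [hc] at f3
        have : α * β = 0 := by linear_combination -f3
        rcases mul_eq_zero.mp this with h | h
        · exact absurd h ha
        · exact absurd h hb
      · left
        refine ⟨?_, ?_, ?_⟩
        · rcases mul_eq_zero.mp f1 with h | h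
          · linarith
          · exact absurd h (mul_ne_zero hb hc)
        · rcases mul_eq_zero.mp f2 with h | h
          · linarith
          · exact absurd h (mul_ne_zero ha hc)
        · rcases mul_eq_zero.mp f3 with h | h
          · linarith
          · exact absurd h (mul_ne_zero ha hb)

/-- abstract combinatorics of the three agreement relations -/
lemma comb_false (a b c : Fin 5 → Fin 5 → Prop)
    (asymm : ∀ i j, a i j → a j i) (atr : ∀ i j k, a i j → a j k → a i k)
    (bsymm : ∀ i j, b i j → b j i) (btr : ∀ i j k, b i j → b j k → b i k)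
    (csymm : ∀ i j, c i j → c j i) (ctr : ∀ i j k, c i j → c j k → c i k)
    (hone : ∀ i j, i ≠ j → a i j ∨ b i j ∨ c i j)
    (hab : ∀ i j, i ≠ j → a i j → ¬ b i j) (hac : ∀ i j, i ≠ j → a i j → ¬ c i j)
    (h2 : ∀ i j k, i ≠ j → i ≠ k → j ≠ k → ¬ a i j → ¬ a i k → a j k)
    (h3 : ∀ i j k l, i ≠ j → i ≠ k → i ≠ l → j ≠ k → j ≠ l → k ≠ l → ¬ b i j → ¬ b i k →
      ¬ b i l → ¬ b j k → ¬ b j l → ¬ b k l → False) : False := by
  have L1 : ∀ p q r k, p ≠ q → p ≠ r → p ≠ k → q ≠ r → q ≠ k → r ≠ k → a p q → a p r →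
      ¬ a k p → False := by
    intro p q r k hpq hpr hpk hqr hqk hrk h1 h4 h5
    have haqr : a q r := atr _ _ _ (asymm _ _ h1) h4
    have hkq : ¬ a k q := fun h => h5 (atr _ _ _ h (asymm _ _ h1))
    have hkr : ¬ a k r := fun h => h5 (atr _ _ _ h (asymm _ _ h4))
    have o1 : b k p ∨ c k p := (hone k p hpk.symm).resolve_left h5
    have o2 : b k q ∨ c k q := (hone k q hqk.symm).resolve_left hkq
    have o3 : b k r ∨ c k r := (hone k r hrk.symm).resolve_left hkr
    rcases o1 with o1 | o1 <;> rcases o2 with o2 | o2 <;> rcases o3 with o3 | o3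
    · exact hab _ _ hpq h1 (btr _ _ _ (bsymm _ _ o1) o2)
    · exact hab _ _ hpq h1 (btr _ _ _ (bsymm _ _ o1) o2)
    · exact hab _ _ hpr h4 (btr _ _ _ (bsymm _ _ o1) o3)
    · exact hac _ _ hqr haqr (ctr _ _ _ (csymm _ _ o2) o3)
    · exact hab _ _ hqr haqr (btr _ _ _ (bsymm _ _ o2) o3)
    · exact hac _ _ hpr h4 (ctr _ _ _ (csymm _ _ o1) o3)
    · exact hac _ _ hpq h1 (ctr _ _ _ (csymm _ _ o1) o2)
    · exact hac _ _ hpq h1 (ctr _ _ _ (csymm _ _ o1) o2)
  have L4 : ∀ p q r s, p ≠ q → p ≠ r → p ≠ s → q ≠ r → q ≠ s → r ≠ s → a p q → a p r →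
      a p s → False := by
    intro p q r s hpq hpr hps hqr hqs hrs h1 h4 h5
    exact h3 p q r s hpq hpr hps hqr hqs hrs (hab _ _ hpq h1) (hab _ _ hpr h4) (hab _ _ hps h5)
      (hab _ _ hqr (atr _ _ _ (asymm _ _ h1) h4)) (hab _ _ hqs (atr _ _ _ (asymm _ _ h1) h5))
      (hab _ _ hrs (atr _ _ _ (asymm _ _ h4) h5))
  have L5 : ∀ i j k, (0 : Fin 5) ≠ i → (0 : Fin 5) ≠ j → (0 : Fin 5) ≠ k → i ≠ j → i ≠ k → j ≠ k →
      ¬ a 0 i → ¬ a 0 j → ¬ a 0 k → False := by
    intro i j k h0i h0j h0k hij hik hjk hi hj hk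
    exact L1 i j k 0 hij hik h0i.symm hjk h0j.symm h0k.symm (h2 0 i j h0i h0j hij hi hj)
      (h2 0 i k h0i h0k hik hi hk) hi
  have sy : ∀ k, ¬ a 0 k → ¬ a k 0 := fun k h h' => h (asymm _ _ h')
  by_cases c1 : a 0 1 <;> by_cases c2 : a 0 2 <;> by_cases c3 : a 0 3 <;> by_cases c4 : a 0 4
  · exact L4 0 1 2 3 (by decide) (by decide) (by decide) (by decide) (by decide) (by decide) c1 c2 c3
  · exact L4 0 1 2 3 (by decide) (by decide) (by decide) (by decide) (by decide) (by decide) c1 c2 c3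
  · exact L4 0 1 2 4 (by decide) (by decide) (by decide) (by decide) (by decide) (by decide) c1 c2 c4
  · exact L1 0 1 2 3 (by decide) (by decide) (by decide) (by decide) (by decide) (by decide) c1 c2 (sy _ c3)
  · exact L4 0 1 3 4 (by decide) (by decide) (by decide) (by decide) (by decide) (by decide) c1 c3 c4
  · exact L1 0 1 3 2 (by decide) (by decide) (by decide) (by decide) (by decide) (by decide) c1 c3 (sy _ c2)
  · exact L1 0 1 4 2 (by decide) (by decide) (by decide) (by decide) (by decide) (by decide) c1 c4 (sy _ c2)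
  · exact L5 2 3 4 (by decide) (by decide) (by decide) (by decide) (by decide) (by decide) c2 c3 c4
  · exact L4 0 2 3 4 (by decide) (by decide) (by decide) (by decide) (by decide) (by decide) c2 c3 c4
  · exact L1 0 2 3 1 (by decide) (by decide) (by decide) (by decide) (by decide) (by decide) c2 c3 (sy _ c1)
  · exact L1 0 2 4 1 (by decide) (by decide) (by decide) (by decide) (by decide) (by decide) c2 c4 (sy _ c1)
  · exact L5 1 3 4 (by decide) (by decide) (by decide) (by decide) (by decide) (by decide) c1 c3 c4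
  · exact L1 0 3 4 1 (by decide) (by decide) (by decide) (by decide) (by decide) (by decide) c3 c4 (sy _ c1)
  · exact L5 1 2 4 (by decide) (by decide) (by decide) (by decide) (by decide) (by decide) c1 c2 c4
  · exact L5 1 2 3 (by decide) (by decide) (by decide) (by decide) (by decide) (by decide) c1 c2 c3
  · exact L5 1 2 3 (by decide) (by decide) (by decide) (by decide) (by decide) (by decide) c1 c2 c3

/-- no five pairwise different lines of an antipodal set -/
lemma five_false (X : Fin 5 → EE 2) (Y Z : Fin 5 → EE 3) (hX : ∀ i, ‖X i‖ = 1)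
    (hY : ∀ i, ‖Y i‖ = 1) (hZ : ∀ i, ‖Z i‖ = 1)
    (h : ∀ i j, i ≠ j → (⟪X i, X j⟫ ^ 2 = 1 ∧ ⟪Y i, Y j⟫ = 0 ∧ ⟪Z i, Z j⟫ = 0) ∨
      (⟪X i, X j⟫ = 0 ∧ ⟪Y i, Y j⟫ ^ 2 = 1 ∧ ⟪Z i, Z j⟫ = 0) ∨
      (⟪X i, X j⟫ = 0 ∧ ⟪Y i, Y j⟫ = 0 ∧ ⟪Z i, Z j⟫ ^ 2 = 1)) : False := by
  have n1 : ∀ r : ℝ, r = 0 → r ^ 2 ≠ 1 := by
    rintro r rfl; norm_num
  apply comb_false (fun i j => ⟪X i, X j⟫ ^ 2 = 1) (fun i j => ⟪Y i, Y j⟫ ^ 2 = 1)
    (fun i j => ⟪Z i, Z j⟫ ^ 2 = 1)
  · intro i j hij; simpa only [real_inner_comm] using hij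
  · intro i j k h1 h2; exact par_trans (hX i) (hX j) h1 h2
  · intro i j hij; simpa only [real_inner_comm] using hij
  · intro i j k h1 h2; exact par_trans (hY i) (hY j) h1 h2
  · intro i j hij; simpa only [real_inner_comm] using hij
  · intro i j k h1 h2; exact par_trans (hZ i) (hZ j) h1 h2
  · intro i j hij
    rcases h i j hij with h1 | h1 | h1
    · exact Or.inl h1.1
    · exact Or.inr (Or.inl h1.2.1)
    · exact Or.inr (Or.inr h1.2.2)
  · intro i j hij h1
    rcases h i j hij with h2 | h2 | h2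
    · exact n1 _ h2.2.1
    · exact absurd h1 (n1 _ h2.1)
    · exact absurd h1 (n1 _ h2.1)
  · intro i j hij h1
    rcases h i j hij with h2 | h2 | h2
    · exact n1 _ h2.2.2
    · exact absurd h1 (n1 _ h2.1)
    · exact absurd h1 (n1 _ h2.1)
  · intro i j k hij hik hjk h1 h2
    by_contra h3
    have g1 : ⟪X i, X j⟫ = 0 := by
      rcases h i j hij with h4 | h4 | h4
      · exact absurd h4.1 h1
      · exact h4.1
      · exact h4.1
    have g2 : ⟪X i, X k⟫ = 0 := by
      rcases h i k hik with h4 | h4 | h4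
      · exact absurd h4.1 h2
      · exact h4.1
      · exact h4.1
    have g3 : ⟪X j, X k⟫ = 0 := by
      rcases h j k hjk with h4 | h4 | h4
      · exact absurd h4.1 h3
      · exact h4.1
      · exact h4.1
    apply not_orth (n := 2) (m := 3) (by norm_num) ![X i, X j, X k]
    · intro l; fin_cases l <;> simp [hX]
    · intro l m hlm
      fin_cases l <;> fin_cases m <;> simp_all [real_inner_comm]
  · intro i j k l hij hik hil hjk hjl hkl h1 h2 h3 h4 h5 h6
    have g : ∀ i j, i ≠ j → ¬ ⟪Y i, Y j⟫ ^ 2 = 1 → ⟪Y i, Y j⟫ = 0 := by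
      intro i j hij hn
      rcases h i j hij with h4 | h4 | h4
      · exact h4.2.1
      · exact absurd h4.2.1 hn
      · exact h4.2.1
    have g1 := g _ _ hij h1
    have g2 := g _ _ hik h2
    have g3 := g _ _ hil h3
    have g4 := g _ _ hjk h4
    have g5 := g _ _ hjl h5
    have g6 := g _ _ hkl h6
    apply not_orth (n := 3) (m := 4) (by norm_num) ![Y i, Y j, Y k, Y l]
    · intro l; fin_cases l <;> simp [hY]
    · intro p q hpq
      have g1' := (real_inner_comm (Y i) (Y j)).trans g1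
      have g2' := (real_inner_comm (Y i) (Y k)).trans g2
      have g3' := (real_inner_comm (Y i) (Y l)).trans g3
      have g4' := (real_inner_comm (Y j) (Y k)).trans g4
      have g5' := (real_inner_comm (Y j) (Y l)).trans g5
      have g6' := (real_inner_comm (Y k) (Y l)).trans g6
      fin_cases p <;> fin_cases q <;>
        first
          | exact absurd rfl hpq
          | assumption

/-- nine points contain five which are pairwise different up to sign -/
lemma exists_five {M V : Type*} [AddGroup V] (j : M → V) (hj : Function.Injective j)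
    (B : Finset M) (hB : 9 ≤ B.card) : ∃ t : Fin 5 → M, (∀ i, t i ∈ B) ∧
      ∀ i k, i ≠ k → j (t i) ≠ j (t k) ∧ j (t i) ≠ -j (t k) := by
  classical
  let f : M → Sym2 V := fun T => s(j T, -j T)
  have h1 : B.card ≤ 2 * (B.image f).card := by
    apply Finset.card_le_mul_card_image B 2
    intro a ha
    obtain ⟨T0, hT0, rfl⟩ := Finset.mem_image.mp ha
    have h2 : (B.filter (fun T => f T = f T0)).image j ⊆ {j T0, -j T0} := by
      intro v hv
      obtain ⟨T, hT, rfl⟩ := Finset.mem_image.mp hv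
      have h3 := (Finset.mem_filter.mp hT).2
      simp only [f, Sym2.eq_iff] at h3
      rcases h3 with h3 | h3
      · simp [h3.1]
      · simp [h3.1]
    calc (B.filter (fun T => f T = f T0)).card = ((B.filter (fun T => f T = f T0)).image j).card :=
          (Finset.card_image_of_injective _ hj).symm
      _ ≤ ({j T0, -j T0} : Finset V).card := Finset.card_le_card h2
      _ ≤ 2 := Finset.card_le_two
  have h2 : 5 ≤ (B.image f).card := by omega
  obtain ⟨I, hI, hIc⟩ := Finset.exists_subset_card_eq h2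
  have e : Fin 5 ≃ I := (Finset.equivFinOfCardEq hIc).symm
  have h3 : ∀ i : Fin 5, ∃ T ∈ B, f T = (e i).1 := fun i => Finset.mem_image.mp (hI (e i).2)
  choose t ht1 ht2 using h3
  refine ⟨t, ht1, ?_⟩
  intro i k hik
  have hne : f (t i) ≠ f (t k) := by
    rw [ht2, ht2]
    intro h
    exact hik (e.injective (Subtype.ext h))
  constructor
  · intro h
    apply hne
    simp only [f, h]
  · intro h
    apply hne
    simp only [f, h, neg_neg, Sym2.eq_iff]
    right
    exact ⟨trivial, trivial⟩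

/-- antipodal sets have at most eight elements -/
lemma card_le_eight {M : Type*} (j : M → VV) (hj : Function.Injective j) (B : Finset M)
    (X : M → EE 2) (Y Z : M → EE 3) (hX : ∀ T, ‖X T‖ = 1) (hY : ∀ T, ‖Y T‖ = 1)
    (hZ : ∀ T, ‖Z T‖ = 1) (hT : ∀ T, j T = ten (X T) (Y T) (Z T))
    (h : ∀ T ∈ B, ∀ T' ∈ B, op (refl (X T) (hX T)) (refl (Y T) (hY T)) (refl (Z T) (hZ T)) (j T') =
      j T') : B.card ≤ 8 := by
  by_contra hcon
  push Not at hcon
  obtain ⟨t, htB, hne⟩ := exists_five j hj B hcon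
  apply five_false (fun i => X (t i)) (fun i => Y (t i)) (fun i => Z (t i)) (fun i => hX _)
    (fun i => hY _) (fun i => hZ _)
  intro i k hik
  have h1 := h (t i) (htB i) (t k) (htB k)
  rw [hT (t k)] at h1
  rcases fix_rel (hX _) (hY _) (hZ _) (hX _) (hY _) (hZ _) h1 with h2 | h2
  · exfalso
    have e : j (t i) = (⟪X (t i), X (t k)⟫ * ⟪Y (t i), Y (t k)⟫ * ⟪Z (t i), Z (t k)⟫) •
        j (t k) := by
      rw [hT (t k), ← ten_smul, ← inner_smul_self (hX _) (hX _) h2.1,
        ← inner_smul_self (hY _) (hY _) h2.2.1, ← inner_smul_self (hZ _) (hZ _) h2.2.2, hT (t i)]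
    set m := ⟪X (t i), X (t k)⟫ * ⟪Y (t i), Y (t k)⟫ * ⟪Z (t i), Z (t k)⟫ with hm
    have hm2 : m ^ 2 = 1 := by
      rw [hm, mul_pow, mul_pow, h2.1, h2.2.1, h2.2.2]; norm_num
    rcases (show m = 1 ∨ m = -1 from by
      have : (m - 1) * (m + 1) = 0 := by linear_combination hm2
      rcases mul_eq_zero.mp this with h | h
      · left; linarith
      · right; linarith) with h3 | h3
    · rw [h3, one_smul] at e
      exact (hne i k hik).1 e
    · rw [h3, neg_one_smul] at e
      exact (hne i k hik).2 e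
  · exact h2

end Pool.Agent.X178.Two
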