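import Mathlib
import Pool.Agent.Helper562.Imm

/-! Embedded submanifolds with explicit global charts, with the induced Riemannian metric. -/

set_option autoImplicit false

open Bundle Bornology Set MeasureTheory Manifold Filter Topology
open scoped ENNReal ContDiff Manifold NNReal

noncomputable section

namespace Pool.Agent.X178.Two

set_option maxSynthPendingDepth 3
set_option linter.unusedSectionVars false
set_option linter.unusedVariables false

open Pool.Agent.Helper562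

/-- A subset `S` of `V` covered by open sets of `V` on which it has smooth global charts. -/
structure Emb (V E : Type) [NormedAddCommGroup V] [InnerProductSpace ℝ V]
    [NormedAddCommGroup E] [NormedSpace ℝ E] where
  S : Set V
  ι : Type
  U : ι → Set V
  isOpenU : ∀ a, IsOpen (U a)
  ρ : ι → V → E
  ψ : ι → E → V
  smρ : ∀ a, ContDiffOn ℝ ∞ (ρ a) (U a)
  smψ : ∀ a, ContDiff ℝ ∞ (ψ a)
  memS : ∀ a v, ψ a v ∈ S
  memU : ∀ a v, ψ a v ∈ U a
  ρψ : ∀ a v, ρ a (ψ a v) = v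
  ψρ : ∀ a, ∀ w ∈ S, w ∈ U a → ψ a (ρ a w) = w
  cover : ∀ w ∈ S, ∃ a, w ∈ U a

namespace Emb

variable {V E : Type} [NormedAddCommGroup V] [InnerProductSpace ℝ V]
    [NormedAddCommGroup E] [NormedSpace ℝ E] (A : Emb V E)

/-- the manifold -/
def M : Type := A.S

instance : TopologicalSpace A.M := inferInstanceAs (TopologicalSpace A.S)
instance : T3Space A.M := inferInstanceAs (T3Space A.S)

/-- the inclusion -/
def inc (x : A.M) : V := x.1

lemma inc_mem (x : A.M) : A.inc x ∈ A.S := x.2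

lemma continuous_inc : Continuous A.inc := continuous_subtype_val

lemma isInducing_inc : IsInducing A.inc := IsInducing.subtypeVal

lemma inc_injective : Function.Injective A.inc := Subtype.val_injective

/-- the charts -/
def chart (a : A.ι) : OpenPartialHomeomorph A.M E where
  toFun x := A.ρ a x.1
  invFun v := ⟨A.ψ a v, A.memS a v⟩
  source := {x | x.1 ∈ A.U a}
  target := univ
  map_source' _ _ := mem_univ _
  map_target' v _ := A.memU a v
  left_inv' x hx := Subtype.ext (A.ψρ a x.1 x.2 hx)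
  right_inv' v _ := A.ρψ a v
  open_source := (A.isOpenU a).preimage A.continuous_inc
  open_target := isOpen_univ
  continuousOn_toFun := (A.smρ a).continuousOn.comp A.continuous_inc.continuousOn (fun _ hx => hx)
  continuousOn_invFun := by
    apply Continuous.continuousOn
    exact (A.smψ a).continuous.subtype_mk _

/-- index of the preferred chart. -/
def idx (x : A.M) : A.ι := (A.cover x.1 x.2).choose

lemma idx_spec (x : A.M) : A.inc x ∈ A.U (A.idx x) := (A.cover x.1 x.2).choose_spec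

instance chartedSpace : ChartedSpace E A.M where
  atlas := range A.chart
  chartAt x := A.chart (A.idx x)
  mem_chart_source x := A.idx_spec x
  chart_mem_atlas x := mem_range_self _

lemma chartAt_eq (x : A.M) : chartAt E x = A.chart (A.idx x) := rfl

lemma contDiffAt_ρ {a : A.ι} {w : V} (hw : w ∈ A.U a) : ContDiffAt ℝ ∞ (A.ρ a) w :=
  (A.smρ a).contDiffAt ((A.isOpenU a).mem_nhds hw)

instance isManifold : IsManifold 𝓘(ℝ, E) ∞ A.M := by
  apply isManifold_of_contDiffOn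
  rintro _ _ ⟨b, rfl⟩ ⟨c, rfl⟩
  simp only [modelWithCornersSelf_coe, modelWithCornersSelf_coe_symm, Function.comp_id,
    Function.id_comp, range_id, inter_univ, preimage_id]
  intro y hy
  apply ContDiffAt.contDiffWithinAt
  have hy2 : A.ψ b y ∈ A.U c := hy.2
  have h1 : ContDiffAt ℝ ∞ (fun y => A.ρ c (A.ψ b y)) y :=
    (A.contDiffAt_ρ hy2).comp y (A.smψ b).contDiffAt
  exact h1

lemma contMDiff_inc : ContMDiff 𝓘(ℝ, E) 𝓘(ℝ, V) ∞ A.inc := by
  intro x
  rw [contMDiffAt_iff]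
  refine ⟨A.continuous_inc.continuousAt, ?_⟩
  simp only [mfld_simps]
  apply ContDiff.contDiffWithinAt
  exact A.smψ (A.idx x)

/-- A map into the manifold is smooth as soon as it is smooth in the ambient space. -/
lemma contMDiffWithinAt_of_inc {N H' : Type*} {E' : Type*} [NormedAddCommGroup E']
    [NormedSpace ℝ E'] [TopologicalSpace H'] {I' : ModelWithCorners ℝ E' H'}
    [TopologicalSpace N] [ChartedSpace H' N] {g : N → A.M}
    {s : Set N} {t : N} {n : ℕ∞ω} (hn : n ≤ (∞ : ℕ∞ω))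
    (hg : ContMDiffWithinAt I' 𝓘(ℝ, V) n (fun y => A.inc (g y)) s t) :
    ContMDiffWithinAt I' 𝓘(ℝ, E) n g s t := by
  rw [contMDiffWithinAt_iff_target]
  constructor
  · exact A.isInducing_inc.continuousWithinAt_iff.2 hg.continuousWithinAt
  · have h2 : ContMDiffWithinAt I' 𝓘(ℝ, E) n
        (fun y => A.ρ (A.idx (g t)) (A.inc (g y))) s t := by
      have h3 : ContMDiffAt 𝓘(ℝ, V) 𝓘(ℝ, E) n (A.ρ (A.idx (g t))) (A.inc (g t)) :=
        ((A.contDiffAt_ρ (A.idx_spec (g t))).of_le hn).contMDiffAt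
      exact h3.comp_contMDiffWithinAt t hg
    exact h2

lemma D_inc_inj (x : A.M) : Function.Injective (Imm.D (E := E) A.inc x) := by
  have h1 := (mdifferentiable_chart (I := 𝓘(ℝ, E)) x).mfderiv_injective (mem_chart_source E x)
  have hd : DifferentiableAt ℝ (A.ρ (A.idx x)) (A.inc x) :=
    (A.contDiffAt_ρ (A.idx_spec x)).differentiableAt (by simp)
  have hi : MDifferentiableAt 𝓘(ℝ, E) 𝓘(ℝ, V) A.inc x :=
    (A.contMDiff_inc x).mdifferentiableAt (by simp)
  have h2 : mfderiv 𝓘(ℝ, E) 𝓘(ℝ, E) (chartAt E x : A.M → E) x =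
      (mfderiv 𝓘(ℝ, V) 𝓘(ℝ, E) (A.ρ (A.idx x)) (A.inc x)).comp
        (mfderiv 𝓘(ℝ, E) 𝓘(ℝ, V) A.inc x) :=
    mfderiv_comp (I' := 𝓘(ℝ, V)) x hd.mdifferentiableAt hi
  intro v w hvw
  apply h1
  have h6 : mfderiv 𝓘(ℝ, E) 𝓘(ℝ, V) A.inc x v = mfderiv 𝓘(ℝ, E) 𝓘(ℝ, V) A.inc x w := hvw
  rw [h2]
  exact congrArg (mfderiv 𝓘(ℝ, V) 𝓘(ℝ, E) (A.ρ (A.idx x)) (A.inc x)) h6

section Metric

variable [FiniteDimensional ℝ E]

/-- the induced Riemannian metric. -/
def g : ContMDiffRiemannianMetric 𝓘(ℝ, E) ∞ E (fun x : A.M => TangentSpace 𝓘(ℝ, E) x) :=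
  Imm.metric A.inc A.contMDiff_inc A.D_inc_inj

/-- the Riemannian bundle structure. -/
@[reducible] def rb : RiemannianBundle (fun x : A.M => TangentSpace 𝓘(ℝ, E) x) :=
  ⟨A.g.toRiemannianMetric⟩

attribute [local instance] rb

lemma enorm_eq (x : A.M) (v : TangentSpace 𝓘(ℝ, E) x) :
    ‖v‖ₑ = ‖Imm.D (E := E) A.inc x v‖ₑ := by
  have h : ‖v‖ = ‖Imm.D (E := E) A.inc x v‖ := by
    rw [norm_eq_sqrt_real_inner, norm_eq_sqrt_real_inner]
    rfl
  rw [← ofReal_norm, ← ofReal_norm, h]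

lemma cb' : IsContinuousRiemannianBundle E (fun x : A.M => TangentSpace 𝓘(ℝ, E) x) :=
  ⟨A.g.inner, A.g.contMDiff.continuous, fun _ _ _ => rfl⟩

lemma ccb : IsContMDiffRiemannianBundle 𝓘(ℝ, E) ∞ E
    (fun x : A.M => TangentSpace 𝓘(ℝ, E) x) :=
  ⟨A.g.inner, A.g.contMDiff, fun _ _ _ => rfl⟩

attribute [local instance] cb' ccb

/-- the extended metric. -/
@[reducible] def emM : EMetricSpace A.M := EMetricSpace.ofRiemannianMetric 𝓘(ℝ, E) A.M

lemma lower (x y : A.M) : edist (A.inc x) (A.inc y) ≤ riemannianEDist 𝓘(ℝ, E) x y :=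
  Imm.edist_le_riemannianEDist A.inc A.contMDiff_inc A.enorm_eq x y

lemma edist_ne_top [PreconnectedSpace A.M] (x y : A.M) : A.emM.edist x y ≠ ⊤ := by
  let _ : EMetricSpace A.M := A.emM
  have h1 : IsClopen (Metric.eball x ⊤) := ⟨Metric.isClosed_eball_top, Metric.isOpen_eball⟩
  have h3 : PreconnectedSpace A.M := inferInstance
  have h2 : Metric.eball x ⊤ = univ := by
    apply h1.eq_univ
    exact ⟨x, by simp⟩
  have h4 : y ∈ Metric.eball x ⊤ := by rw [h2]; trivial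
  have h5 : edist y x < ⊤ := h4
  rw [edist_comm] at h5
  exact h5.ne

/-- the Riemannian distance makes the manifold a metric space. -/
@[reducible] def mM [PreconnectedSpace A.M] : MetricSpace A.M :=
  @EMetricSpace.toMetricSpace A.M A.emM A.edist_ne_top

lemma edist_mM [PreconnectedSpace A.M] (x y : A.M) :
    A.mM.toPseudoMetricSpace.toPseudoEMetricSpace.edist x y =
    riemannianEDist 𝓘(ℝ, E) x y := rfl

/-- maps induced by linear isometries of the ambient space -/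
def map (L : V →ₗᵢ[ℝ] V) (hL : ∀ w ∈ A.S, L w ∈ A.S) (x : A.M) : A.M := ⟨L x.1, hL x.1 x.2⟩

lemma inc_map (L : V →ₗᵢ[ℝ] V) (hL : ∀ w ∈ A.S, L w ∈ A.S) (x : A.M) :
    A.inc (A.map L hL x) = L (A.inc x) := rfl

lemma contMDiff_map (L : V →ₗᵢ[ℝ] V) (hL : ∀ w ∈ A.S, L w ∈ A.S) :
    ContMDiff 𝓘(ℝ, E) 𝓘(ℝ, E) ∞ (A.map L hL) := by
  rw [← contMDiffOn_univ]
  intro x _
  apply A.contMDiffWithinAt_of_inc le_rfl
  have h1 : ContMDiff 𝓘(ℝ, V) 𝓘(ℝ, V) ∞ L := L.toContinuousLinearMap.contMDiff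
  exact (h1.comp A.contMDiff_inc).contMDiffAt.contMDiffWithinAt

lemma riemannianEDist_map_le (L : V →ₗᵢ[ℝ] V) (hL : ∀ w ∈ A.S, L w ∈ A.S) (x y : A.M) :
    riemannianEDist 𝓘(ℝ, E) (A.map L hL x) (A.map L hL y) ≤ riemannianEDist 𝓘(ℝ, E) x y := by
  apply le_of_forall_gt
  intro r hr
  obtain ⟨c, h0, h1, hc, hlt⟩ := exists_lt_of_riemannianEDist_lt hr
  have hc2 : ContMDiffOn 𝓘(ℝ, ℝ) 𝓘(ℝ, E) 1 (fun t => A.map L hL (c t)) (Icc 0 1) :=
    ((A.contMDiff_map L hL).of_le (by simp)).comp_contMDiffOn hc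
  refine lt_of_le_of_lt (riemannianEDist_le_pathELength hc2 (by rw [h0]) (by rw [h1])
    zero_le_one) ?_
  rw [Imm.pathELength_eq A.inc A.contMDiff_inc A.enorm_eq _ hc2]
  rw [Imm.pathELength_eq A.inc A.contMDiff_inc A.enorm_eq _ hc] at hlt
  refine lt_of_le_of_lt (le_of_eq ?_) hlt
  apply setLIntegral_congr_fun measurableSet_Icc (fun t ht ↦ ?_)
  have hcd : ContDiffOn ℝ 1 (A.inc ∘ c) (Icc 0 1) := by
    rw [← contMDiffOn_iff_contDiffOn]
    exact (A.contMDiff_inc.of_le (by simp)).comp_contMDiffOn hc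
  have hu := uniqueDiffOn_Icc (zero_lt_one : (0 : ℝ) < 1) t ht
  have d1 : HasDerivWithinAt (A.inc ∘ c) (derivWithin (A.inc ∘ c) (Icc 0 1) t) (Icc 0 1) t :=
    ((hcd.differentiableOn (by simp)) t ht).hasDerivWithinAt
  have d2 : HasDerivWithinAt (A.inc ∘ fun t => A.map L hL (c t))
      (L (derivWithin (A.inc ∘ c) (Icc 0 1) t)) (Icc 0 1) t :=
    L.toContinuousLinearMap.hasFDerivAt.comp_hasDerivWithinAt t d1
  rw [d2.derivWithin hu, ← ofReal_norm, ← ofReal_norm, L.norm_map]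

lemma riemannianEDist_map (L L' : V →ₗᵢ[ℝ] V) (hL : ∀ w ∈ A.S, L w ∈ A.S)
    (hL' : ∀ w ∈ A.S, L' w ∈ A.S) (hinv : ∀ w, L' (L w) = w) (x y : A.M) :
    riemannianEDist 𝓘(ℝ, E) (A.map L hL x) (A.map L hL y) = riemannianEDist 𝓘(ℝ, E) x y := by
  apply le_antisymm (A.riemannianEDist_map_le L hL x y)
  have h1 := A.riemannianEDist_map_le L' hL' (A.map L hL x) (A.map L hL y)
  have h2 : ∀ z, A.map L' hL' (A.map L hL z) = z := fun z => Subtype.ext (hinv _)
  rwa [h2, h2] at h1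

end Metric

end Emb

end Pool.Agent.X178.Two
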