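import Pool.Agent.X178.Two.Ten
import Pool.Agent.X178.Two.Emb

/-! The manifold of unit rank one tensors in `ℝ² ⊗ ℝ³ ⊗ ℝ³`. -/

set_option autoImplicit false

open Set Matrix Metric
open scoped RealInnerProductSpace ContDiff

noncomputable section

namespace Pool.Agent.X178.Two

/-- sign of a boolean -/
def sg (b : Bool) : ℝ := if b then 1 else -1

lemma sg_sq (b : Bool) : sg b * sg b = 1 := by cases b <;> norm_num [sg]

lemma sg_abs (b : Bool) : |sg b| = 1 := by cases b <;> norm_num [sg]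

/-- affine vector in the first factor -/
def cX (i : Fin 2) (v : EE 5) : EE 2 := WithLp.toLp 2 (fun a => if a = i then 1 else v 0)

/-- affine vector in the second factor -/
def cY (j : Fin 3) (v : EE 5) : EE 3 :=
  WithLp.toLp 2 (fun a => if a = j then 1 else if a = j + 1 then v 1 else v 2)

/-- affine vector in the third factor -/
def cZ (k : Fin 3) (v : EE 5) : EE 3 :=
  WithLp.toLp 2 (fun a => if a = k then 1 else if a = k + 1 then v 3 else v 4)

/-- affine rank one tensor -/
def tA (p : Ix) (v : EE 5) : VV := ten (cX p.1 v) (cY p.2.1 v) (cZ p.2.2 v)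

lemma tA_self (p : Ix) (v : EE 5) : tA p v p = 1 := by
  simp [tA, ten_apply, cX, cY, cZ]

lemma tA_ne (p : Ix) (v : EE 5) : tA p v ≠ 0 := by
  intro h
  have h1 := tA_self p v
  rw [h] at h1
  simp at h1

lemma norm_tA_pos (p : Ix) (v : EE 5) : 0 < ‖tA p v‖ := norm_pos_iff.mpr (tA_ne p v)

lemma contDiff_tA (p : Ix) : ContDiff ℝ ∞ (tA p) := by
  rw [contDiff_euclidean]
  intro q
  have h : ∀ i : Fin 5, ContDiff ℝ ∞ (fun v : EE 5 => v i) := fun i =>
    (EuclideanSpace.proj (𝕜 := ℝ) i).contDiff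
  have h1 : ContDiff ℝ ∞ (fun v : EE 5 => cX p.1 v q.1) := by
    simp only [cX]
    split_ifs
    · exact contDiff_const
    · exact h 0
  have h2 : ContDiff ℝ ∞ (fun v : EE 5 => cY p.2.1 v q.2.1) := by
    simp only [cY]
    split_ifs
    · exact contDiff_const
    · exact h 1
    · exact h 2
  have h3 : ContDiff ℝ ∞ (fun v : EE 5 => cZ p.2.2 v q.2.2) := by
    simp only [cZ]
    split_ifs
    · exact contDiff_const
    · exact h 3
    · exact h 4
  exact (h1.mul h2).mul h3

/-- parametrisation -/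
def psi (a : Ix × Bool) (v : EE 5) : VV := (sg a.2 * ‖tA a.1 v‖⁻¹) • tA a.1 v

lemma contDiff_psi (a : Ix × Bool) : ContDiff ℝ ∞ (psi a) := by
  change ContDiff ℝ ∞ ((fun v => sg a.2 * ‖tA a.1 v‖⁻¹) • fun v => tA a.1 v)
  apply ContDiff.smul
  · apply contDiff_const.mul
    exact ((contDiff_tA a.1).norm ℝ (tA_ne a.1)).inv (fun v => (norm_tA_pos a.1 v).ne')
  · exact contDiff_tA a.1

lemma norm_psi (a : Ix × Bool) (v : EE 5) : ‖psi a v‖ = 1 := by
  unfold psi
  rw [norm_smul, norm_mul, norm_inv, norm_norm, Real.norm_eq_abs, sg_abs, one_mul,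
    inv_mul_cancel₀ (norm_tA_pos a.1 v).ne']

lemma psi_mem (a : Ix × Bool) (v : EE 5) : psi a v ∈ SS := by
  have h := norm_psi a v
  unfold psi tA at h ⊢
  exact smul_mem_SS h

/-- neighbouring indices -/
def nb (p : Ix) : Fin 5 → Ix :=
  ![(p.1 + 1, p.2.1, p.2.2), (p.1, p.2.1 + 1, p.2.2), (p.1, p.2.1 + 2, p.2.2),
    (p.1, p.2.1, p.2.2 + 1), (p.1, p.2.1, p.2.2 + 2)]

/-- chart map -/
def rho (a : Ix × Bool) (w : VV) : EE 5 := WithLp.toLp 2 (fun i => w (nb a.1 i) / w a.1)

/-- chart domain -/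
def UU (a : Ix × Bool) : Set VV := {w | 0 < sg a.2 * w a.1}

lemma ne_of_mem {a : Ix × Bool} {w : VV} (hw : w ∈ UU a) : w a.1 ≠ 0 := by
  intro h
  have h1 : 0 < sg a.2 * w a.1 := hw
  rw [h, mul_zero] at h1
  exact lt_irrefl _ h1

lemma contDiffOn_rho (a : Ix × Bool) : ContDiffOn ℝ ∞ (rho a) (UU a) := by
  rw [contDiffOn_euclidean]
  intro i
  have h : ∀ p : Ix, ContDiff ℝ ∞ (fun w : VV => w p) := fun p =>
    (EuclideanSpace.proj (𝕜 := ℝ) p).contDiff
  exact ((h _).contDiffOn).div ((h _).contDiffOn) (fun w hw => ne_of_mem hw)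

lemma isOpen_UU (a : Ix × Bool) : IsOpen (UU a) := by
  have h : Continuous (fun w : VV => sg a.2 * w a.1) := by fun_prop
  exact isOpen_lt continuous_const h

lemma psi_mem_UU (a : Ix × Bool) (v : EE 5) : psi a v ∈ UU a := by
  change 0 < sg a.2 * ((sg a.2 * ‖tA a.1 v‖⁻¹) • tA a.1 v) a.1
  rw [PiLp.smul_apply, tA_self, smul_eq_mul, mul_one, ← mul_assoc, sg_sq, one_mul]
  exact inv_pos.mpr (norm_tA_pos a.1 v)

lemma tA_nb (p : Ix) (v : EE 5) (i : Fin 5) : tA p v (nb p i) = v i := by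
  obtain ⟨a, b, c⟩ := p
  have e1 : ∀ a : Fin 2, a + 1 ≠ a := by decide
  have e2 : ∀ a : Fin 3, a + 1 ≠ a := by decide
  have e3 : ∀ a : Fin 3, a + 2 ≠ a := by decide
  have e4 : ∀ a : Fin 3, a + 2 ≠ a + 1 := by decide
  fin_cases i <;>
    simp [tA, nb, ten_apply, cX, cY, cZ, e1, e2, e3, e4]

lemma rho_psi (a : Ix × Bool) (v : EE 5) : rho a (psi a v) = v := by
  ext i
  change psi a v (nb a.1 i) / psi a v a.1 = v i
  unfold psi
  rw [PiLp.smul_apply, PiLp.smul_apply, tA_self, tA_nb, smul_eq_mul, smul_eq_mul, mul_one]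
  have h : sg a.2 * ‖tA a.1 v‖⁻¹ ≠ 0 := by
    apply mul_ne_zero
    · intro h; have := sg_sq a.2; rw [h] at this; norm_num at this
    · exact inv_ne_zero (norm_tA_pos a.1 v).ne'
  exact mul_div_cancel_left₀ _ h

lemma fin2_cases : ∀ a i : Fin 2, a = i ∨ a = i + 1 := by decide
lemma fin3_cases : ∀ a i : Fin 3, a = i ∨ a = i + 1 ∨ a = i + 2 := by decide

lemma psi_rho (a : Ix × Bool) (w : VV) (hw : w ∈ SS) (hU : w ∈ UU a) : psi a (rho a w) = w := by
  have hnorm := norm_of_mem hw
  have hne := ne_of_mem hU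
  obtain ⟨x, y, z, -, -, -, rfl⟩ := hw
  obtain ⟨⟨i, j, k⟩, b⟩ := a
  set w := ten x y z with hwdef
  have hwp : w (i, j, k) = x i * y j * z k := rfl
  change w (i, j, k) ≠ 0 at hne
  have hx : x i ≠ 0 := by
    intro h; apply hne; rw [hwp, h]; ring
  have hy : y j ≠ 0 := by
    intro h; apply hne; rw [hwp, h]; ring
  have hz : z k ≠ 0 := by
    intro h; apply hne; rw [hwp, h]; ring
  have e1 : ∀ a : Fin 2, a + 1 ≠ a := by decide
  have e2 : ∀ a : Fin 3, a + 1 ≠ a := by decide
  have e3 : ∀ a : Fin 3, a + 2 ≠ a := by decide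
  have e4 : ∀ a : Fin 3, a + 2 ≠ a + 1 := by decide
  have r0 : rho ((i, j, k), b) w 0 = x (i + 1) / x i := by
    change x (i + 1) * y j * z k / (x i * y j * z k) = _
    field_simp
  have r1 : rho ((i, j, k), b) w 1 = y (j + 1) / y j := by
    change x i * y (j + 1) * z k / (x i * y j * z k) = _
    field_simp
  have r2 : rho ((i, j, k), b) w 2 = y (j + 2) / y j := by
    change x i * y (j + 2) * z k / (x i * y j * z k) = _
    field_simp
  have r3 : rho ((i, j, k), b) w 3 = z (k + 1) / z k := by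
    change x i * y j * z (k + 1) / (x i * y j * z k) = _
    field_simp
  have r4 : rho ((i, j, k), b) w 4 = z (k + 2) / z k := by
    change x i * y j * z (k + 2) / (x i * y j * z k) = _
    field_simp
  have c1 : cX i (rho ((i, j, k), b) w) = (x i)⁻¹ • x := by
    ext a
    change (if a = i then 1 else rho ((i, j, k), b) w 0) = (x i)⁻¹ * x a
    rcases fin2_cases a i with rfl | rfl
    · rw [if_pos rfl, inv_mul_cancel₀ hx]
    · rw [if_neg (e1 i), r0]; field_simp
  have c2 : cY j (rho ((i, j, k), b) w) = (y j)⁻¹ • y := by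
    ext a
    change (if a = j then 1 else if a = j + 1 then rho ((i, j, k), b) w 1
      else rho ((i, j, k), b) w 2) = (y j)⁻¹ * y a
    rcases fin3_cases a j with rfl | rfl | rfl
    · rw [if_pos rfl, inv_mul_cancel₀ hy]
    · rw [if_neg (e2 j), if_pos rfl, r1]; field_simp
    · rw [if_neg (e3 j), if_neg (e4 j), r2]; field_simp
  have c3 : cZ k (rho ((i, j, k), b) w) = (z k)⁻¹ • z := by
    ext a
    change (if a = k then 1 else if a = k + 1 then rho ((i, j, k), b) w 3
      else rho ((i, j, k), b) w 4) = (z k)⁻¹ * z a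
    rcases fin3_cases a k with rfl | rfl | rfl
    · rw [if_pos rfl, inv_mul_cancel₀ hz]
    · rw [if_neg (e2 k), if_pos rfl, r3]; field_simp
    · rw [if_neg (e3 k), if_neg (e4 k), r4]; field_simp
  have htA : tA (i, j, k) (rho ((i, j, k), b) w) = (w (i, j, k))⁻¹ • w := by
    unfold tA
    rw [c1, c2, c3, ten_smul, ← hwdef, hwp, mul_inv, mul_inv]
  unfold psi
  simp only []
  rw [htA, norm_smul, hnorm, mul_one, norm_inv, inv_inv, smul_smul, Real.norm_eq_abs]
  have hpos : 0 < sg b * w (i, j, k) := hU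
  have habs : |w (i, j, k)| = sg b * w (i, j, k) := by
    rw [← abs_of_pos hpos, abs_mul, sg_abs, one_mul]
  rw [habs, ← mul_assoc, sg_sq, one_mul, mul_inv_cancel₀ hne, one_smul]

lemma exists_UU (w : VV) (hw : w ∈ SS) : ∃ a, w ∈ UU a := by
  have h0 : w ≠ 0 := by
    intro h
    have := norm_of_mem hw
    rw [h, norm_zero] at this
    norm_num at this
  have h1 : ∃ p, w p ≠ 0 := by
    by_contra hcon
    push Not at hcon
    apply h0
    ext p
    exact hcon p
  obtain ⟨p, hp⟩ := h1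
  rcases lt_or_gt_of_ne hp with h | h
  · refine ⟨(p, false), ?_⟩
    change 0 < sg false * w p
    simp only [sg, Bool.false_eq_true, if_false]
    linarith
  · refine ⟨(p, true), ?_⟩
    change 0 < sg true * w p
    simp only [sg, if_true]
    linarith

/-- the embedded manifold of unit rank one tensors -/
def Seg : Emb VV (EE 5) where
  S := SS
  ι := Ix × Bool
  U := UU
  isOpenU := isOpen_UU
  ρ := rho
  ψ := psi
  smρ := contDiffOn_rho
  smψ := contDiff_psi
  memS := psi_mem
  memU := psi_mem_UU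
  ρψ := rho_psi
  ψρ := psi_rho
  cover := exists_UU

lemma continuous_ten : Continuous (fun q : EE 2 × EE 3 × EE 3 => ten q.1 q.2.1 q.2.2) := by
  apply (PiLp.continuous_toLp 2 _).comp
  fun_prop

lemma SS_eq : SS = (fun q : EE 2 × EE 3 × EE 3 => ten q.1 q.2.1 q.2.2) ''
    (sphere 0 1 ×ˢ (sphere 0 1 ×ˢ sphere 0 1)) := by
  ext w
  constructor
  · rintro ⟨x, y, z, hx, hy, hz, rfl⟩
    exact ⟨(x, y, z), ⟨by simpa using hx, by simpa using hy, by simpa using hz⟩, rfl⟩
  · rintro ⟨⟨x, y, z⟩, ⟨hx, hy, hz⟩, rfl⟩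
    exact ⟨x, y, z, by simpa using hx, by simpa using hy, by simpa using hz, rfl⟩

lemma isCompact_SS : IsCompact SS := by
  rw [SS_eq]
  exact ((isCompact_sphere 0 1).prod ((isCompact_sphere 0 1).prod (isCompact_sphere 0 1))).image
    continuous_ten

lemma isConnected_SS : IsConnected SS := by
  rw [SS_eq]
  have h2 : IsPathConnected (sphere (0 : EE 2) 1) := by
    apply isPathConnected_sphere _ _ zero_le_one
    rw [← Module.finrank_eq_rank, finrank_euclideanSpace_fin]
    norm_num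
  have h3 : IsPathConnected (sphere (0 : EE 3) 1) := by
    apply isPathConnected_sphere _ _ zero_le_one
    rw [← Module.finrank_eq_rank, finrank_euclideanSpace_fin]
    norm_num
  exact ((h2.prod (h3.prod h3)).image continuous_ten).isConnected

instance : CompactSpace Seg.M := isCompact_iff_compactSpace.mp isCompact_SS
instance : ConnectedSpace Seg.M := isConnected_iff_connectedSpace.mp isConnected_SS

end Pool.Agent.X178.Two
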