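import Pool.Agent.X178.Two.Emb

/-! Isometries of embedded manifolds with differential minus the identity. -/

set_option autoImplicit false

open Bundle Bornology Set MeasureTheory Manifold Filter Topology
open scoped ENNReal ContDiff Manifold NNReal

noncomputable section

namespace Pool.Agent.X178.Two

set_option maxSynthPendingDepth 3
set_option linter.unusedSectionVars false
set_option linter.unusedVariables false

open Pool.Agent.Helper562

namespace Emb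

variable {V E : Type} [NormedAddCommGroup V] [InnerProductSpace ℝ V]
    [NormedAddCommGroup E] [NormedSpace ℝ E] [FiniteDimensional ℝ E] (A : Emb V E)

lemma D_inc_eq (x : A.M) : Imm.D (E := E) A.inc x =
    fderiv ℝ (A.ψ (A.idx x)) (A.ρ (A.idx x) (A.inc x)) := by
  have hd : HasFDerivAt (A.ψ (A.idx x)) (fderiv ℝ (A.ψ (A.idx x)) (A.ρ (A.idx x) (A.inc x)))
      (A.ρ (A.idx x) (A.inc x)) :=
    (((A.smψ (A.idx x)).differentiable (by simp)) _).hasFDerivAt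
  have h : HasMFDerivAt 𝓘(ℝ, E) 𝓘(ℝ, V) A.inc x
      (fderiv ℝ (A.ψ (A.idx x)) (A.ρ (A.idx x) (A.inc x))) := by
    refine ⟨A.continuous_inc.continuousAt, ?_⟩
    exact hd.hasFDerivWithinAt
  exact h.mfderiv

/-- A linear isometry which is minus the identity to second order. -/
lemma mfderiv_map (L : V →ₗᵢ[ℝ] V) (hL : ∀ w ∈ A.S, L w ∈ A.S) (x : A.M)
    (hx : L (A.inc x) = A.inc x) (C : ℝ)
    (hC : ∀ w ∈ A.S, ‖L w + w - (2 : ℝ) • A.inc x‖ ≤ C * ‖w - A.inc x‖ ^ 2) :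
    mfderiv 𝓘(ℝ, E) 𝓘(ℝ, E) (A.map L hL) x = -ContinuousLinearMap.id ℝ E := by
  set a := A.idx x with ha
  set v₀ := A.ρ a (A.inc x) with hv₀
  have hψ0 : A.ψ a v₀ = A.inc x := A.ψρ a _ x.2 (A.idx_spec x)
  have hd : HasFDerivAt (A.ψ a) (fderiv ℝ (A.ψ a) v₀) v₀ :=
    (((A.smψ a).differentiable (by simp)) v₀).hasFDerivAt
  -- derivative of the sum vanishes
  have hsum : HasFDerivAt (fun v => L (A.ψ a v) + A.ψ a v)
      (L.toContinuousLinearMap.comp (fderiv ℝ (A.ψ a) v₀) + fderiv ℝ (A.ψ a) v₀) v₀ :=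
    (L.toContinuousLinearMap.hasFDerivAt.comp v₀ hd).add hd
  have hO : (fun v => A.ψ a v - A.ψ a v₀) =O[𝓝 v₀] fun v => v - v₀ := hd.isBigO_sub
  have hzero : HasFDerivAt (fun v => L (A.ψ a v) + A.ψ a v) (0 : E →L[ℝ] V) v₀ := by
    rw [hasFDerivAt_iff_isLittleO]
    have h1 : (fun v => L (A.ψ a v) + A.ψ a v - (L (A.ψ a v₀) + A.ψ a v₀) - (0 : E →L[ℝ] V) (v - v₀))
        =O[𝓝 v₀] fun v => ‖A.ψ a v - A.ψ a v₀‖ ^ 2 := by
      apply Asymptotics.IsBigO.of_bound C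
      filter_upwards with v
      have h := hC (A.ψ a v) (A.memS a v)
      have e : L (A.ψ a v) + A.ψ a v - (L (A.ψ a v₀) + A.ψ a v₀) - (0 : E →L[ℝ] V) (v - v₀) =
          L (A.ψ a v) + A.ψ a v - (2 : ℝ) • A.inc x := by
        rw [hψ0, hx, zero_apply, sub_zero, two_smul]
      rw [e, hψ0]
      simpa using h
    refine h1.trans_isLittleO ?_
    have h2 : (fun v => ‖A.ψ a v - A.ψ a v₀‖ ^ 2) =O[𝓝 v₀] fun v => ‖v - v₀‖ ^ 2 :=
      hO.norm_norm.pow 2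
    refine h2.trans_isLittleO ?_
    have h3 : (fun v : E => ‖v - v₀‖ ^ 2) =o[𝓝 v₀] fun v => ‖v - v₀‖ ^ 1 := by
      have h4 := Asymptotics.isLittleO_norm_pow_norm_pow (E' := E) (m := 1) (n := 2) (by norm_num)
      have h5 : Tendsto (fun v : E => v - v₀) (𝓝 v₀) (𝓝 0) := by
        have : Continuous (fun v : E => v - v₀) := by fun_prop
        simpa using this.tendsto v₀
      exact h4.comp_tendsto h5
    simp only [pow_one] at h3
    exact Asymptotics.isLittleO_norm_right.mp h3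
  have huniq := hsum.unique hzero
  -- chain rule
  have hi : ∀ y : A.M, MDifferentiableAt 𝓘(ℝ, E) 𝓘(ℝ, V) A.inc y :=
    fun y => (A.contMDiff_inc y).mdifferentiableAt (by simp)
  have hm : MDifferentiableAt 𝓘(ℝ, E) 𝓘(ℝ, E) (A.map L hL) x :=
    (A.contMDiff_map L hL x).mdifferentiableAt (by simp)
  have hLd : MDifferentiableAt 𝓘(ℝ, V) 𝓘(ℝ, V) L (A.inc x) :=
    L.toContinuousLinearMap.differentiableAt.mdifferentiableAt
  have c1 : mfderiv 𝓘(ℝ, E) 𝓘(ℝ, V) (A.inc ∘ A.map L hL) x =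
      (mfderiv 𝓘(ℝ, E) 𝓘(ℝ, V) A.inc (A.map L hL x)).comp
        (mfderiv 𝓘(ℝ, E) 𝓘(ℝ, E) (A.map L hL) x) :=
    mfderiv_comp x (hi _) hm
  have c2 : mfderiv 𝓘(ℝ, E) 𝓘(ℝ, V) (L ∘ A.inc) x =
      (mfderiv 𝓘(ℝ, V) 𝓘(ℝ, V) L (A.inc x)).comp (mfderiv 𝓘(ℝ, E) 𝓘(ℝ, V) A.inc x) :=
    mfderiv_comp x hLd (hi x)
  have c3 : mfderiv 𝓘(ℝ, V) 𝓘(ℝ, V) L (A.inc x) = L.toContinuousLinearMap := by
    rw [mfderiv_eq_fderiv]
    exact L.toContinuousLinearMap.fderiv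
  have hxx : A.map L hL x = x := Subtype.ext hx
  have hD := A.D_inc_eq x
  ext v
  apply A.D_inc_inj x
  have e1 : Imm.D (E := E) A.inc x (mfderiv 𝓘(ℝ, E) 𝓘(ℝ, E) (A.map L hL) x v) =
      L (Imm.D (E := E) A.inc x v) := by
    have h1 := congrArg (fun B => B v) c1
    have h2 := congrArg (fun B => B v) c2
    rw [c3] at h2
    have h3 : (A.inc ∘ A.map L hL) = (L ∘ A.inc) := rfl
    rw [h3] at h1
    have h4 := h1.symm.trans h2
    rw [hxx] at h4
    exact h4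
  have e2 : L (Imm.D (E := E) A.inc x v) = -(Imm.D (E := E) A.inc x v) := by
    have h1 : L (fderiv ℝ (A.ψ a) v₀ v) + fderiv ℝ (A.ψ a) v₀ v = 0 :=
      congrArg (fun B : E →L[ℝ] V => B v) huniq
    rw [hD]
    exact eq_neg_of_add_eq_zero_left h1
  have e3 : Imm.D (E := E) A.inc x (-v) = -(Imm.D (E := E) A.inc x v) := map_neg _ _
  rw [e1, e2, ← e3]
  rfl

end Emb

end Pool.Agent.X178.Two
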