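import Pool.Agent.X178.Two.Card
import Pool.Agent.X178.Two.Comb
import Pool.Agent.X178.Two.Seg
import Pool.Agent.X178.Two.Sym
import Pool.Agent.X178.Nag.Sym

/-! Two-number and mod 2 cohomology of the manifold of unit rank one tensors. -/

set_option autoImplicit false

open Set Matrix Metric Bundle Manifold
open scoped RealInnerProductSpace ContDiff ENNReal

noncomputable section

namespace Pool.Agent.X178.Two

open Pool.Agent.Helper381 (totalBetti riemannian_geo IsSymmetryAt Geo)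
open Pool.Agent.X178.Nag (isoEquiv isoEquiv_apply isSymmetryAt_of_mfderiv)

section Defs

variable {E : Type} [NormedAddCommGroup E] [NormedSpace ℝ E]
  {M : Type} [MetricSpace M] [ChartedSpace E M]

/-- `s x` is the geodesic symmetry of the Riemannian manifold `M` at `x`, for every `x`: an
isometry fixing `x` whose differential at `x` is `-id`. -/
def IsSymm (s : M → M → M) : Prop :=
  ∀ x : M, Isometry (s x) ∧ s x x = x ∧
    mfderiv 𝓘(ℝ, E) 𝓘(ℝ, E) (s x) x = -ContinuousLinearMap.id ℝ E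

end Defs

/-- The two-number: the supremum of the cardinalities of the sets `A` with `s x y = y` for all
`x, y ∈ A`. -/
def twoNumber {M : Type} (s : M → M → M) : ℕ∞ :=
  ⨆ A : {A : Set M // ∀ x ∈ A, ∀ y ∈ A, s x y = y}, A.1.encard

/-- coordinate points -/
def bp (p : Ix) (b : Bool) : VV :=
  ten (EuclideanSpace.single p.1 (sg b)) (EuclideanSpace.single p.2.1 1)
    (EuclideanSpace.single p.2.2 1)

lemma norm_single_sg {n : ℕ} (i : Fin n) (b : Bool) :
    ‖(EuclideanSpace.single i (sg b) : EE n)‖ = 1 := by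
  rw [show ‖(EuclideanSpace.single i (sg b) : EE n)‖ = ‖sg b‖ from PiLp.norm_single 2 _ _ _,
    Real.norm_eq_abs, sg_abs]

lemma norm_single_one {n : ℕ} (i : Fin n) : ‖(EuclideanSpace.single i (1 : ℝ) : EE n)‖ = 1 := by
  rw [show ‖(EuclideanSpace.single i (1 : ℝ) : EE n)‖ = ‖(1 : ℝ)‖ from PiLp.norm_single 2 _ _ _,
    norm_one]

lemma bp_mem (p : Ix) (b : Bool) : bp p b ∈ SS :=
  ⟨_, _, _, norm_single_sg _ _, norm_single_one _, norm_single_one _, rfl⟩

lemma bp_self (p : Ix) (b : Bool) : bp p b p = sg b := by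
  simp [bp, ten_apply]

lemma bp_ne {p q : Ix} (b : Bool) (h : q ≠ p) : bp p b q = 0 := by
  simp only [bp, ten_apply, PiLp.single_apply]
  by_cases h1 : q.1 = p.1
  · by_cases h2 : q.2.1 = p.2.1
    · by_cases h3 : q.2.2 = p.2.2
      · exact absurd (Prod.ext h1 (Prod.ext h2 h3)) h
      · simp [h3]
    · simp [h2]
  · simp [h1]

lemma sg_inj {b b' : Bool} (h : sg b = sg b') : b = b' := by
  cases b <;> cases b' <;> first | rfl | (norm_num [sg] at h)

lemma sg_ne (b : Bool) : sg b ≠ 0 := by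
  intro h; have := sg_sq b; rw [h] at this; norm_num at this

lemma bp_inj {p p' : Ix} {b b' : Bool} (h : bp p b = bp p' b') : p = p' ∧ b = b' := by
  have h1 : bp p b p = bp p' b' p := by rw [h]
  rw [bp_self] at h1
  by_cases hp : p = p'
  · subst hp
    rw [bp_self] at h1
    exact ⟨rfl, sg_inj h1⟩
  · rw [bp_ne b' hp] at h1
    exact absurd h1 (sg_ne b)

/-- words with isolated common fixed points -/
def wds : Fin 5 → Ix := ![(0, 0, 0), (0, 1, 1), (0, 2, 2), (1, 0, 1), (1, 1, 0)]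

lemma wds_inj : Function.Injective wds := by decide

/-- signs -/
def s1 : Fin 2 → ℤ := ![1, -1]
/-- signs -/
def s2 : Fin 3 → ℤ := ![1, -1, 1]
/-- signs -/
def s3 : Fin 3 → ℤ := ![1, 1, -1]

lemma wds_sgn : ∀ m : Fin 5, s1 (wds m).1 * s2 (wds m).2.1 * s2 (wds m).2.2 = 1 ∧
    s3 (wds m).2.1 * s3 (wds m).2.2 = 1 := by decide

lemma wds_iso : ∀ (m : Fin 5) (a : Fin 2) (b c : Fin 3),
    (s1 a * s2 (wds m).2.1 * s2 (wds m).2.2 = 1 ∧ 1 * s3 (wds m).2.1 * s3 (wds m).2.2 = 1 ∧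
    s1 (wds m).1 * s2 b * s2 (wds m).2.2 = 1 ∧ 1 * s3 b * s3 (wds m).2.2 = 1 ∧
    s1 (wds m).1 * s2 (wds m).2.1 * s2 c = 1 ∧ 1 * s3 (wds m).2.1 * s3 c = 1) →
    (a = (wds m).1 ∧ b = (wds m).2.1 ∧ c = (wds m).2.2) := by decide

lemma s1_sq (i : Fin 2) : ((s1 i : ℤ) : ℝ) * (s1 i : ℤ) = 1 := by
  fin_cases i <;> norm_num [s1]
lemma s2_sq (i : Fin 3) : ((s2 i : ℤ) : ℝ) * (s2 i : ℤ) = 1 := by
  fin_cases i <;> norm_num [s2]
lemma s3_sq (i : Fin 3) : ((s3 i : ℤ) : ℝ) * (s3 i : ℤ) = 1 := by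
  fin_cases i <;> norm_num [s3]

/-- sign matrices -/
def D1 : SI 2 := dg (fun i => (s1 i : ℝ)) s1_sq
/-- sign matrices -/
def D2 : SI 3 := dg (fun i => (s2 i : ℝ)) s2_sq
/-- sign matrices -/
def D3 : SI 3 := dg (fun i => (s3 i : ℝ)) s3_sq
/-- identity matrix -/
def D0 : SI 2 := dg (fun _ => 1) (fun _ => by norm_num)

lemma g1_apply (w : VV) (p : Ix) :
    op D1 D2 D2 w p = (s1 p.1 : ℝ) * (s2 p.2.1 : ℝ) * (s2 p.2.2 : ℝ) * w p := op_dg _ _ _ _ _ _ _ _

lemma g2_apply (w : VV) (p : Ix) :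
    op D0 D3 D3 w p = 1 * (s3 p.2.1 : ℝ) * (s3 p.2.2 : ℝ) * w p := op_dg _ _ _ _ _ _ _ _

/-- the common fixed points are isolated -/
lemma fixed_isolated (m : Fin 5) (b : Bool) {w : VV} (hw : w ∈ SS) (h1 : op D1 D2 D2 w = w)
    (h2 : op D0 D3 D3 w = w) (hd : ‖w - bp (wds m) b‖ < 1) : w = bp (wds m) b := by
  have hn := norm_of_mem hw
  obtain ⟨x, y, z, hx, hy, hz, rfl⟩ := hw
  set w := ten x y z with hwd
  set p := wds m with hp
  have hwp : |w p - sg b| < 1 := by
    have h3 := PiLp.norm_apply_le (w - bp p b) p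
    rw [PiLp.sub_apply, bp_self, Real.norm_eq_abs] at h3
    exact lt_of_le_of_lt h3 hd
  have hne : w p ≠ 0 := by
    intro h0
    rw [h0, zero_sub, abs_neg, sg_abs] at hwp
    exact lt_irrefl _ hwp
  have sgn1 : ∀ q : Ix, w q ≠ 0 → s1 q.1 * s2 q.2.1 * s2 q.2.2 = 1 := by
    intro q hq
    have h3 := congrArg (fun v : VV => v q) h1
    simp only [g1_apply] at h3
    have h4 : (s1 q.1 : ℝ) * (s2 q.2.1 : ℝ) * (s2 q.2.2 : ℝ) = 1 := by
      apply mul_right_cancel₀ hq
      rw [h3, one_mul]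
    exact_mod_cast h4
  have sgn2 : ∀ q : Ix, w q ≠ 0 → 1 * s3 q.2.1 * s3 q.2.2 = 1 := by
    intro q hq
    have h3 := congrArg (fun v : VV => v q) h2
    simp only [g2_apply] at h3
    have h4 : 1 * (s3 q.2.1 : ℝ) * (s3 q.2.2 : ℝ) = 1 := by
      apply mul_right_cancel₀ hq
      rw [h3, one_mul]
    exact_mod_cast h4
  have hp3 : x p.1 * y p.2.1 * z p.2.2 ≠ 0 := hne
  have hxp : x p.1 ≠ 0 := fun h => hp3 (by rw [h]; ring)
  have hyp : y p.2.1 ≠ 0 := fun h => hp3 (by rw [h]; ring)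
  have hzp : z p.2.2 ≠ 0 := fun h => hp3 (by rw [h]; ring)
  have hzero : ∀ q : Ix, q ≠ p → w q = 0 := by
    intro q hq
    by_contra hwq
    apply hq
    have hq3 : x q.1 * y q.2.1 * z q.2.2 ≠ 0 := hwq
    have hxq : x q.1 ≠ 0 := fun h => hq3 (by rw [h]; ring)
    have hyq : y q.2.1 ≠ 0 := fun h => hq3 (by rw [h]; ring)
    have hzq : z q.2.2 ≠ 0 := fun h => hq3 (by rw [h]; ring)
    have n1 : w (q.1, p.2.1, p.2.2) ≠ 0 := mul_ne_zero (mul_ne_zero hxq hyp) hzp
    have n2 : w (p.1, q.2.1, p.2.2) ≠ 0 := mul_ne_zero (mul_ne_zero hxp hyq) hzp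
    have n3 : w (p.1, p.2.1, q.2.2) ≠ 0 := mul_ne_zero (mul_ne_zero hxp hyp) hzq
    obtain ⟨r1, r2, r3⟩ := wds_iso m q.1 q.2.1 q.2.2 ⟨sgn1 (q.1, p.2.1, p.2.2) n1,
      sgn2 (q.1, p.2.1, p.2.2) n1, sgn1 (p.1, q.2.1, p.2.2) n2, sgn2 (p.1, q.2.1, p.2.2) n2,
      sgn1 (p.1, p.2.1, q.2.2) n3, sgn2 (p.1, p.2.1, q.2.2) n3⟩
    exact Prod.ext r1 (Prod.ext r2 r3)
  have habs : w p ^ 2 = 1 := by
    have h3 : ‖w‖ ^ 2 = w p ^ 2 := by
      rw [EuclideanSpace.norm_sq_eq, Finset.sum_eq_single p]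
      · rw [Real.norm_eq_abs, sq_abs]
      · intro q _ hq
        rw [hzero q hq, norm_zero]; norm_num
      · intro h; exact absurd (Finset.mem_univ p) h
    rw [← h3, hn]; norm_num
  have hval : w p = sg b := by
    have h4 : (w p - 1) * (w p + 1) = 0 := by linear_combination habs
    rcases mul_eq_zero.mp h4 with h5 | h5
    · have h6 : w p = 1 := by linarith
      cases b
      · exfalso
        rw [h6] at hwp
        norm_num [sg] at hwp
      · rw [h6]; simp [sg]
    · have h6 : w p = -1 := by linarith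
      cases b
      · rw [h6]; simp [sg]
      · exfalso
        rw [h6] at hwp
        norm_num [sg] at hwp
  ext q
  by_cases hq : q = p
  · rw [hq, hval, bp_self]
  · rw [hzero q hq, bp_ne b hq]

/-- words of a maximal antipodal set -/
def wd4 : Fin 4 → Ix := ![(0, 0, 0), (0, 1, 1), (1, 0, 1), (1, 1, 0)]

lemma wd4_inj : Function.Injective wd4 := by decide

lemma wd4_sgn : ∀ m k : Fin 4, (if (wd4 m).1 = (wd4 k).1 then (1 : ℤ) else -1) *
    (if (wd4 m).2.1 = (wd4 k).2.1 then (1 : ℤ) else -1) *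
    (if (wd4 m).2.2 = (wd4 k).2.2 then (1 : ℤ) else -1) = 1 := by decide

lemma mv_refl_single {n : ℕ} (i i' : Fin n) (a a' : ℝ) (ha : a * a = 1)
    (hx : ‖(EuclideanSpace.single i a : EE n)‖ = 1) :
    mv (refl (EuclideanSpace.single i a) hx).a (EuclideanSpace.single i' a') =
      ((if i = i' then (1 : ℤ) else -1 : ℤ) : ℝ) • (EuclideanSpace.single i' a' : EE n) := by
  rw [mv_refl, EuclideanSpace.inner_single_left]
  by_cases h : i = i'
  · subst h
    ext q
    simp only [PiLp.sub_apply, PiLp.smul_apply, PiLp.single_apply, smul_eq_mul, if_true]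
    by_cases hq : q = i
    · simp only [hq, if_true]
      simp
      linear_combination (2 * a') * ha
    · simp [hq]
  · ext q
    simp only [PiLp.sub_apply, PiLp.smul_apply, PiLp.single_apply, smul_eq_mul, if_neg h]
    simp
    split_ifs <;> simp

lemma op_bp (m k : Fin 4) (b b' : Bool) :
    op (refl _ (norm_single_sg (wd4 m).1 b)) (refl _ (norm_single_one (wd4 m).2.1))
      (refl _ (norm_single_one (wd4 m).2.2)) (bp (wd4 k) b') = bp (wd4 k) b' := by
  unfold bp
  rw [op_ten, mv_refl_single _ _ _ _ (sg_sq b), mv_refl_single _ _ _ _ (by norm_num),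
    mv_refl_single _ _ _ _ (by norm_num), ten_smul]
  have h := wd4_sgn m k
  rw [← Int.cast_mul, ← Int.cast_mul, h, Int.cast_one, one_smul]

section Abs

variable {M : Type} [MetricSpace M] [CompactSpace M] [ConnectedSpace M]
  [ChartedSpace (EE 5) M] [IsManifold 𝓘(ℝ, EE 5) ∞ M]
  [RiemannianBundle (fun x : M => TangentSpace 𝓘(ℝ, EE 5) x)]
  [IsContMDiffRiemannianBundle 𝓘(ℝ, EE 5) ∞ (EE 5) (fun x : M => TangentSpace 𝓘(ℝ, EE 5) x)]
  [IsRiemannianManifold 𝓘(ℝ, EE 5) M]

theorem main_abs (j : M → VV) (hj : Function.Injective j) (hS : ∀ x, j x ∈ SS)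
    (hS' : ∀ w ∈ SS, ∃ x, j x = w) (hlow : ∀ x y, dist (j x) (j y) ≤ dist x y)
    (act : SI 2 → SI 3 → SI 3 → M → M) (hact : ∀ a b c, Isometry (act a b c))
    (hja : ∀ a b c x, j (act a b c x) = op a b c (j x))
    (hd : ∀ (x : EE 2) (y z : EE 3) (hx : ‖x‖ = 1) (hy : ‖y‖ = 1) (hz : ‖z‖ = 1) (T : M),
      j T = ten x y z → mfderiv 𝓘(ℝ, EE 5) 𝓘(ℝ, EE 5)
        (act (refl x hx) (refl y hy) (refl z hz)) T = -ContinuousLinearMap.id ℝ (EE 5)) :
    (∃ s : M → M → M, IsSymm (E := EE 5) s) ∧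
      ∀ s : M → M → M, IsSymm (E := EE 5) s → twoNumber s = 8 ∧ 10 ≤ totalBetti (ZMod 2) M := by
  classical
  obtain ⟨R, G⟩ := riemannian_geo (E := EE 5) (M := M)
  have hdec : ∀ T : M, ∃ (x : EE 2) (y z : EE 3), ‖x‖ = 1 ∧ ‖y‖ = 1 ∧ ‖z‖ = 1 ∧
      j T = ten x y z := hS
  choose X Y Z hX hY hZ hT using hdec
  have hfixT : ∀ (x : EE 2) (y z : EE 3) (hx : ‖x‖ = 1) (hy : ‖y‖ = 1) (hz : ‖z‖ = 1) (T : M),
      j T = ten x y z → act (refl x hx) (refl y hy) (refl z hz) T = T := by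
    intro x y z hx hy hz T hTe
    apply hj
    rw [hja, hTe, op_ten, mv_refl, mv_refl, mv_refl]
    have s1 : ∀ {m : ℕ} {u : EE m}, ‖u‖ = 1 → (2 * ⟪u, u⟫) • u - u = u := by
      intro m u hu
      rw [real_inner_self_eq_norm_sq, hu]
      module
    rw [s1 hx, s1 hy, s1 hz]
  refine ⟨⟨fun T => act (refl _ (hX T)) (refl _ (hY T)) (refl _ (hZ T)), fun T =>
    ⟨hact _ _ _, hfixT _ _ _ _ _ _ T (hT T), hd _ _ _ _ _ _ T (hT T)⟩⟩, ?_⟩
  intro s hs
  -- uniqueness
  have huniq : ∀ (x : EE 2) (y z : EE 3) (hx : ‖x‖ = 1) (hy : ‖y‖ = 1) (hz : ‖z‖ = 1) (T : M),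
      j T = ten x y z → ∀ q, s T q = act (refl x hx) (refl y hy) (refl z hz) q := by
    intro x y z hx hy hz T hTe q
    have h1 := isSymmetryAt_of_mfderiv (hs T).1 (hs T).2.1 (hs T).2.2
    have h2 := isSymmetryAt_of_mfderiv (hact (refl x hx) (refl y hy) (refl z hz))
      (hfixT x y z hx hy hz T hTe) (hd x y z hx hy hz T hTe)
    have h3 := G.symm_unique h1 h2 q
    rwa [isoEquiv_apply, isoEquiv_apply] at h3
  refine ⟨le_antisymm ?_ ?_, ?_⟩
  · -- upper bound
    apply iSup_le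
    rintro ⟨A, hA⟩
    change A.encard ≤ 8
    by_contra hcon
    push Not at hcon
    have h9 : (9 : ℕ∞) ≤ A.encard := by
      have := Order.add_one_le_of_lt hcon
      have e : (8 : ℕ∞) + 1 = 9 := by norm_num
      rwa [e] at this
    obtain ⟨B, hBA, hBc⟩ := Set.exists_subset_encard_eq h9
    have hfin : B.Finite := by
      apply Set.finite_of_encard_eq_coe (k := 9)
      rw [hBc]; rfl
    have hcard : hfin.toFinset.card = 9 := by
      have h5 := hfin.encard_eq_coe_toFinset_card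
      rw [hBc] at h5
      exact_mod_cast h5.symm
    have h6 := card_le_eight j hj hfin.toFinset X Y Z hX hY hZ hT (by
      intro T hTB T' hTB'
      rw [← hja, ← huniq _ _ _ _ _ _ T (hT T)]
      rw [hA T (hBA (hfin.mem_toFinset.mp hTB)) T' (hBA (hfin.mem_toFinset.mp hTB'))])
    omega
  · -- the eight points
    have hpt : ∀ q : Fin 4 × Bool, ∃ x : M, j x = bp (wd4 q.1) q.2 := fun q =>
      hS' _ (bp_mem _ _)
    choose pt hpt using hpt
    have hinj : Function.Injective pt := by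
      intro q q' h
      have h1 : bp (wd4 q.1) q.2 = bp (wd4 q'.1) q'.2 := by rw [← hpt, ← hpt, h]
      obtain ⟨h2, h3⟩ := bp_inj h1
      exact Prod.ext (wd4_inj h2) h3
    have hanti : ∀ x ∈ range pt, ∀ y ∈ range pt, s x y = y := by
      rintro _ ⟨q, rfl⟩ _ ⟨q', rfl⟩
      apply hj
      rw [huniq _ _ _ (norm_single_sg (wd4 q.1).1 q.2) (norm_single_one (wd4 q.1).2.1)
        (norm_single_one (wd4 q.1).2.2) (pt q) (hpt q), hja, hpt, op_bp]
    have hcard : (range pt).encard = 8 := by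
      rw [← Set.image_univ, hinj.encard_image, Set.encard_univ, ENat.card_eq_coe_fintype_card]
      simp
    calc (8 : ℕ∞) = (range pt).encard := hcard.symm
      _ ≤ twoNumber s := le_iSup (fun A : {A : Set M // ∀ x ∈ A, ∀ y ∈ A, s x y = y} =>
        A.1.encard) ⟨range pt, hanti⟩
  · -- the ten isolated fixed points
    have hpt : ∀ q : Fin 5 × Bool, ∃ x : M, j x = bp (wds q.1) q.2 := fun q =>
      hS' _ (bp_mem _ _)
    choose pt hpt using hpt
    have hinj : Function.Injective pt := by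
      intro q q' h
      have h1 : bp (wds q.1) q.2 = bp (wds q'.1) q'.2 := by rw [← hpt, ← hpt, h]
      obtain ⟨h2, h3⟩ := bp_inj h1
      exact Prod.ext (wds_inj h2) h3
    set g1 := isoEquiv (hact D1 D2 D2) with hg1
    set g2 := isoEquiv (hact D0 D3 D3) with hg2
    have a1 : ∀ x, j (g1 x) = op D1 D2 D2 (j x) := fun x => hja _ _ _ x
    have a2 : ∀ x, j (g2 x) = op D0 D3 D3 (j x) := fun x => hja _ _ _ x
    have h := card_le_isolated G [g1, g2] (by
      intro g hg x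
      rw [List.mem_cons, List.mem_singleton] at hg
      apply hj
      rcases hg with rfl | rfl
      · rw [a1, a1, op_op]
      · rw [a2, a2, op_op]) (by
      intro g hg h hh x
      rw [List.mem_cons, List.mem_singleton] at hg hh
      apply hj
      have comm : ∀ w : VV, op D1 D2 D2 (op D0 D3 D3 w) = op D0 D3 D3 (op D1 D2 D2 w) := by
        intro w
        ext p
        rw [g1_apply, g2_apply, g2_apply, g1_apply]
        ring
      rcases hg with rfl | rfl <;> rcases hh with rfl | rfl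
      · rfl
      · rw [a1, a2, a2, a1, comm]
      · rw [a2, a1, a1, a2, comm]
      · rfl) (Finset.univ.image pt) (by
      intro g hg a ha
      rw [List.mem_cons, List.mem_singleton] at hg
      obtain ⟨q, -, rfl⟩ := Finset.mem_image.mp ha
      apply hj
      rcases hg with rfl | rfl
      · rw [a1, hpt]
        ext p
        rw [g1_apply]
        by_cases hp : p = wds q.1
        · have := (wds_sgn q.1).1
          rw [hp]
          have h1 : (s1 (wds q.1).1 : ℝ) * (s2 (wds q.1).2.1 : ℝ) * (s2 (wds q.1).2.2 : ℝ) = 1 := by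
            exact_mod_cast this
          rw [h1, one_mul]
        · rw [bp_ne _ hp, mul_zero]
      · rw [a2, hpt]
        ext p
        rw [g2_apply]
        by_cases hp : p = wds q.1
        · have := (wds_sgn q.1).2
          rw [hp]
          have h1 : (s3 (wds q.1).2.1 : ℝ) * (s3 (wds q.1).2.2 : ℝ) = 1 := by
            exact_mod_cast this
          rw [one_mul, h1, one_mul]
        · rw [bp_ne _ hp, mul_zero]) (by
      intro a ha
      obtain ⟨q, -, rfl⟩ := Finset.mem_image.mp ha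
      refine ⟨1, one_pos, ?_⟩
      intro y hy hfix
      apply hj
      rw [hpt]
      apply fixed_isolated q.1 q.2 (hS y)
      · rw [← a1, hfix g1 (by simp)]
      · rw [← a2, hfix g2 (by simp)]
      · rw [← hpt, ← dist_eq_norm]
        exact lt_of_le_of_lt (hlow _ _) hy)
    rw [Finset.card_image_of_injective _ hinj] at h
    have e : (((Finset.univ : Finset (Fin 5 × Bool)).card : ℕ) : ℕ∞) = 10 := by
      simp
    rwa [e] at h

end Abs

end Pool.Agent.X178.Two
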