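import Mathlib

/-! Unit rank one tensors in `ℝ² ⊗ ℝ³ ⊗ ℝ³`. -/

set_option autoImplicit false

open Set Matrix
open scoped RealInnerProductSpace

noncomputable section

namespace Pool.Agent.X178.Two

/-- index set -/
abbrev Ix := Fin 2 × Fin 3 × Fin 3

/-- the space of tensors -/
abbrev VV := EuclideanSpace ℝ Ix

/-- Euclidean space -/
abbrev EE (n : ℕ) := EuclideanSpace ℝ (Fin n)

/-- rank one tensors -/
def ten (x : EE 2) (y z : EE 3) : VV := WithLp.toLp 2 (fun p => x p.1 * y p.2.1 * z p.2.2)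

lemma ten_apply (x : EE 2) (y z : EE 3) (p : Ix) : ten x y z p = x p.1 * y p.2.1 * z p.2.2 := rfl

lemma inner_eq_sum {ι : Type} [Fintype ι] (v w : EuclideanSpace ℝ ι) :
    ⟪v, w⟫ = ∑ i, v i * w i := by
  rw [PiLp.inner_apply]
  refine Finset.sum_congr rfl fun i _ => ?_
  simp [mul_comm]

lemma inner_ten (x x' : EE 2) (y y' z z' : EE 3) :
    ⟪ten x y z, ten x' y' z'⟫ = ⟪x, x'⟫ * ⟪y, y'⟫ * ⟪z, z'⟫ := by
  simp only [inner_eq_sum, ten_apply]
  rw [Fintype.sum_prod_type, Finset.sum_mul_sum, Finset.sum_mul]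
  refine Finset.sum_congr rfl fun i _ => ?_
  rw [Fintype.sum_prod_type, Finset.sum_mul]
  refine Finset.sum_congr rfl fun j _ => ?_
  rw [Finset.mul_sum]
  refine Finset.sum_congr rfl fun k _ => ?_
  ring

lemma norm_ten (x : EE 2) (y z : EE 3) : ‖ten x y z‖ = ‖x‖ * ‖y‖ * ‖z‖ := by
  have h : ‖ten x y z‖ ^ 2 = (‖x‖ * ‖y‖ * ‖z‖) ^ 2 := by
    rw [← real_inner_self_eq_norm_sq, inner_ten, real_inner_self_eq_norm_sq,
      real_inner_self_eq_norm_sq, real_inner_self_eq_norm_sq]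
    ring
  exact (pow_left_inj₀ (norm_nonneg _) (by positivity) two_ne_zero).mp h

lemma ten_smul (a b c : ℝ) (x : EE 2) (y z : EE 3) :
    ten (a • x) (b • y) (c • z) = (a * b * c) • ten x y z := by
  ext p
  simp only [ten_apply, PiLp.smul_apply, smul_eq_mul]
  ring

/-- unit rank one tensors -/
def SS : Set VV := {w | ∃ (x : EE 2) (y z : EE 3), ‖x‖ = 1 ∧ ‖y‖ = 1 ∧ ‖z‖ = 1 ∧ w = ten x y z}

lemma norm_of_mem {w : VV} (hw : w ∈ SS) : ‖w‖ = 1 := by
  obtain ⟨x, y, z, hx, hy, hz, rfl⟩ := hw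
  rw [norm_ten, hx, hy, hz]; norm_num

lemma mem_SS_of_ten {x : EE 2} {y z : EE 3} (h : ‖ten x y z‖ = 1) : ten x y z ∈ SS := by
  rw [norm_ten] at h
  have hx : ‖x‖ ≠ 0 := by rintro h0; rw [h0] at h; norm_num at h
  have hy : ‖y‖ ≠ 0 := by rintro h0; rw [h0] at h; norm_num at h
  have hz : ‖z‖ ≠ 0 := by rintro h0; rw [h0] at h; norm_num at h
  refine ⟨‖x‖⁻¹ • x, ‖y‖⁻¹ • y, ‖z‖⁻¹ • z, ?_, ?_, ?_, ?_⟩
  · rw [norm_smul, norm_inv, norm_norm, inv_mul_cancel₀ hx]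
  · rw [norm_smul, norm_inv, norm_norm, inv_mul_cancel₀ hy]
  · rw [norm_smul, norm_inv, norm_norm, inv_mul_cancel₀ hz]
  · rw [ten_smul, ← mul_inv, ← mul_inv, h, inv_one, one_smul]

/-- scaling a nonzero rank one tensor to norm one -/
lemma smul_mem_SS {x : EE 2} {y z : EE 3} {c : ℝ} (h : ‖c • ten x y z‖ = 1) :
    c • ten x y z ∈ SS := by
  have e : c • ten x y z = ten (c • x) y z := by
    have := ten_smul c 1 1 x y z
    simpa using this.symm
  rw [e] at h ⊢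
  exact mem_SS_of_ten h

/-- Orthogonal matrices act on the tensors. -/
def opM (a : Matrix (Fin 2) (Fin 2) ℝ) (b c : Matrix (Fin 3) (Fin 3) ℝ) : Matrix Ix Ix ℝ :=
  fun p q => a p.1 q.1 * (b p.2.1 q.2.1 * c p.2.2 q.2.2)

/-- matrices act on vectors -/
def mv {ι : Type} [Fintype ι] [DecidableEq ι] (a : Matrix ι ι ℝ) (x : EuclideanSpace ℝ ι) :
    EuclideanSpace ℝ ι := WithLp.toLp 2 (a *ᵥ x.ofLp)

lemma mv_apply {ι : Type} [Fintype ι] [DecidableEq ι] (a : Matrix ι ι ℝ)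
    (x : EuclideanSpace ℝ ι) (i : ι) : mv a x i = ∑ j, a i j * x j := rfl

lemma mv_add {ι : Type} [Fintype ι] [DecidableEq ι] (a : Matrix ι ι ℝ)
    (x y : EuclideanSpace ℝ ι) : mv a (x + y) = mv a x + mv a y := by
  ext i
  simp only [mv_apply, PiLp.add_apply, mul_add, Finset.sum_add_distrib]

lemma mv_smul {ι : Type} [Fintype ι] [DecidableEq ι] (a : Matrix ι ι ℝ) (r : ℝ)
    (x : EuclideanSpace ℝ ι) : mv a (r • x) = r • mv a x := by
  ext i
  simp only [mv_apply, PiLp.smul_apply, smul_eq_mul, Finset.mul_sum]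
  refine Finset.sum_congr rfl fun j _ => ?_
  ring

lemma mv_mul {ι : Type} [Fintype ι] [DecidableEq ι] (a b : Matrix ι ι ℝ)
    (x : EuclideanSpace ℝ ι) : mv (a * b) x = mv a (mv b x) := by
  unfold mv
  simp [Matrix.mulVec_mulVec]

lemma mv_one {ι : Type} [Fintype ι] [DecidableEq ι] (x : EuclideanSpace ℝ ι) :
    mv (1 : Matrix ι ι ℝ) x = x := by
  unfold mv
  simp

lemma inner_mv {ι : Type} [Fintype ι] [DecidableEq ι] (a : Matrix ι ι ℝ)
    (x y : EuclideanSpace ℝ ι) : ⟪mv a x, y⟫ = ⟪x, mv aᵀ y⟫ := by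
  simp only [inner_eq_sum, mv_apply, Finset.sum_mul, Finset.mul_sum, Matrix.transpose_apply]
  rw [Finset.sum_comm]
  refine Finset.sum_congr rfl fun j _ => Finset.sum_congr rfl fun i _ => ?_
  ring

/-- symmetric involutions -/
structure SI (n : ℕ) where
  a : Matrix (Fin n) (Fin n) ℝ
  symm : aᵀ = a
  inv : a * a = 1

lemma opM_transpose (a : Matrix (Fin 2) (Fin 2) ℝ) (b c : Matrix (Fin 3) (Fin 3) ℝ) :
    (opM a b c)ᵀ = opM aᵀ bᵀ cᵀ := rfl

lemma opM_mul (a a' : Matrix (Fin 2) (Fin 2) ℝ) (b b' c c' : Matrix (Fin 3) (Fin 3) ℝ) :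
    opM a b c * opM a' b' c' = opM (a * a') (b * b') (c * c') := by
  ext p q
  simp only [Matrix.mul_apply, opM]
  rw [Fintype.sum_prod_type, Finset.sum_mul]
  refine Finset.sum_congr rfl fun i _ => ?_
  rw [Fintype.sum_prod_type, Finset.sum_mul_sum, Finset.mul_sum]
  refine Finset.sum_congr rfl fun j _ => ?_
  rw [Finset.mul_sum]
  refine Finset.sum_congr rfl fun k _ => ?_
  ring

lemma opM_one : opM 1 1 1 = 1 := by
  ext p q
  simp only [opM, Matrix.one_apply, Prod.ext_iff]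
  by_cases h1 : p.1 = q.1 <;> by_cases h2 : p.2.1 = q.2.1 <;> by_cases h3 : p.2.2 = q.2.2 <;>
    simp [h1, h2, h3]

lemma mv_opM_ten (a : Matrix (Fin 2) (Fin 2) ℝ) (b c : Matrix (Fin 3) (Fin 3) ℝ)
    (x : EE 2) (y z : EE 3) : mv (opM a b c) (ten x y z) = ten (mv a x) (mv b y) (mv c z) := by
  ext p
  simp only [mv_apply, ten_apply, opM]
  rw [Fintype.sum_prod_type, Finset.sum_mul_sum, Finset.sum_mul]
  refine Finset.sum_congr rfl fun i _ => ?_
  rw [Fintype.sum_prod_type, Finset.sum_mul]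
  refine Finset.sum_congr rfl fun j _ => ?_
  rw [Finset.mul_sum]
  refine Finset.sum_congr rfl fun k _ => ?_
  ring

/-- the isometric action of symmetric involutions -/
def op (a : SI 2) (b c : SI 3) : VV →ₗᵢ[ℝ] VV where
  toFun := mv (opM a.a b.a c.a)
  map_add' := mv_add _
  map_smul' := mv_smul _
  norm_map' w := by
    have h : ‖mv (opM a.a b.a c.a) w‖ ^ 2 = ‖w‖ ^ 2 := by
      rw [← real_inner_self_eq_norm_sq, ← real_inner_self_eq_norm_sq, inner_mv, opM_transpose,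
        a.symm, b.symm, c.symm, ← mv_mul, opM_mul, a.inv, b.inv, c.inv, opM_one, mv_one]
    exact (pow_left_inj₀ (norm_nonneg _) (norm_nonneg _) two_ne_zero).mp h

lemma op_apply (a : SI 2) (b c : SI 3) (w : VV) : op a b c w = mv (opM a.a b.a c.a) w := rfl

lemma op_op (a : SI 2) (b c : SI 3) (w : VV) : op a b c (op a b c w) = w := by
  rw [op_apply, op_apply, ← mv_mul, opM_mul, a.inv, b.inv, c.inv, opM_one, mv_one]

lemma op_ten (a : SI 2) (b c : SI 3) (x : EE 2) (y z : EE 3) :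
    op a b c (ten x y z) = ten (mv a.a x) (mv b.a y) (mv c.a z) := mv_opM_ten _ _ _ _ _ _

lemma op_mem (a : SI 2) (b c : SI 3) (w : VV) (hw : w ∈ SS) : op a b c w ∈ SS := by
  have h1 : ‖op a b c w‖ = 1 := by rw [(op a b c).norm_map, norm_of_mem hw]
  obtain ⟨x, y, z, -, -, -, rfl⟩ := hw
  rw [op_ten] at h1 ⊢
  exact mem_SS_of_ten h1

/-- reflection fixing the line of a unit vector -/
def refl {n : ℕ} (x : EE n) (hx : ‖x‖ = 1) : SI n where
  a := (2 : ℝ) • Matrix.vecMulVec x.ofLp x.ofLp - 1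
  symm := by
    rw [Matrix.transpose_sub, Matrix.transpose_smul, Matrix.transpose_one,
      Matrix.transpose_vecMulVec]
  inv := by
    have h : x.ofLp ⬝ᵥ x.ofLp = 1 := by
      have h1 : ⟪x, x⟫ = 1 := by rw [real_inner_self_eq_norm_sq, hx]; norm_num
      rw [inner_eq_sum] at h1
      exact h1
    rw [Matrix.mul_sub, Matrix.sub_mul, Matrix.mul_one, Matrix.one_mul,
      Matrix.smul_mul, Matrix.mul_smul, Matrix.vecMulVec_mul_vecMulVec, h, one_smul]
    module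

lemma mv_refl {n : ℕ} (x : EE n) (hx : ‖x‖ = 1) (u : EE n) :
    mv (refl x hx).a u = (2 * ⟪x, u⟫) • x - u := by
  ext i
  simp only [mv_apply, refl, PiLp.sub_apply, PiLp.smul_apply, smul_eq_mul, Matrix.sub_apply,
    Matrix.smul_apply, Matrix.vecMulVec_apply, Matrix.one_apply, sub_mul, Finset.sum_sub_distrib,
    inner_eq_sum]
  congr 1
  · rw [Finset.mul_sum, Finset.sum_mul]
    refine Finset.sum_congr rfl fun j _ => ?_
    ring
  · simp

/-- diagonal sign matrices -/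
def dg {n : ℕ} (e : Fin n → ℝ) (he : ∀ i, e i * e i = 1) : SI n where
  a := Matrix.diagonal e
  symm := Matrix.diagonal_transpose e
  inv := by
    rw [Matrix.diagonal_mul_diagonal]
    simp only [he]
    exact Matrix.diagonal_one

lemma op_dg (e : Fin 2 → ℝ) (he : ∀ i, e i * e i = 1) (f : Fin 3 → ℝ) (hf : ∀ i, f i * f i = 1)
    (g : Fin 3 → ℝ) (hg : ∀ i, g i * g i = 1) (w : VV) (p : Ix) :
    op (dg e he) (dg f hf) (dg g hg) w p = e p.1 * f p.2.1 * g p.2.2 * w p := by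
  rw [op_apply, mv_apply, Finset.sum_eq_single p]
  · simp only [opM, dg, Matrix.diagonal_apply_eq]; ring
  · intro q _ hq
    have : ¬(p.1 = q.1 ∧ p.2.1 = q.2.1 ∧ p.2.2 = q.2.2) := by
      rintro ⟨h1, h2, h3⟩
      exact hq (Prod.ext h1.symm (Prod.ext h2.symm h3.symm))
    simp only [opM, dg]
    by_cases h1 : p.1 = q.1
    · by_cases h2 : p.2.1 = q.2.1
      · by_cases h3 : p.2.2 = q.2.2
        · exact absurd ⟨h1, h2, h3⟩ this
        · rw [Matrix.diagonal_apply_ne _ h3]; ring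
      · rw [Matrix.diagonal_apply_ne _ h2]; ring
    · rw [Matrix.diagonal_apply_ne _ h1]; ring
  · intro h; exact absurd (Finset.mem_univ p) h

/-- The second order estimate: reflections are minus the identity to second order. -/
lemma second_order {x x' : EE 2} {y y' z z' : EE 3} (hx : ‖x‖ = 1) (hy : ‖y‖ = 1) (hz : ‖z‖ = 1)
    (hx' : ‖x'‖ = 1) (hy' : ‖y'‖ = 1) (hz' : ‖z'‖ = 1) :
    ‖op (refl x hx) (refl y hy) (refl z hz) (ten x' y' z') + ten x' y' z' -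
      (2 : ℝ) • ten x y z‖ ≤ 7 * ‖ten x' y' z' - ten x y z‖ ^ 2 := by
  set α := ⟪x, x'⟫ with hα
  set β := ⟪y, y'⟫ with hβ
  set γ := ⟪z, z'⟫ with hγ
  have key : op (refl x hx) (refl y hy) (refl z hz) (ten x' y' z') + ten x' y' z' -
      (2 : ℝ) • ten x y z = (2 * (α * β * γ - 1)) • ten x y z +
      ((2 : ℝ) • ten (α • x) (y' - β • y) (z' - γ • z) +
        (2 : ℝ) • ten (x' - α • x) (β • y) (z' - γ • z) +
        (2 : ℝ) • ten (x' - α • x) (y' - β • y) (γ • z)) := by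
    rw [op_ten, mv_refl, mv_refl, mv_refl, ← hα, ← hβ, ← hγ]
    ext p
    simp only [ten_apply, PiLp.add_apply, PiLp.sub_apply, PiLp.smul_apply, smul_eq_mul]
    ring
  have ha1 : |α| ≤ 1 := by
    have := abs_real_inner_le_norm x x'
    rwa [hx, hx', one_mul] at this
  have hb1 : |β| ≤ 1 := by
    have := abs_real_inner_le_norm y y'
    rwa [hy, hy', one_mul] at this
  have hc1 : |γ| ≤ 1 := by
    have := abs_real_inner_le_norm z z'
    rwa [hz, hz', one_mul] at this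
  have ha2 : α ^ 2 ≤ 1 := by rw [← sq_abs]; exact pow_le_one₀ (abs_nonneg _) ha1
  have hb2 : β ^ 2 ≤ 1 := by rw [← sq_abs]; exact pow_le_one₀ (abs_nonneg _) hb1
  have hc2 : γ ^ 2 ≤ 1 := by rw [← sq_abs]; exact pow_le_one₀ (abs_nonneg _) hc1
  have hw : ‖ten x' y' z' - ten x y z‖ ^ 2 = 2 * (1 - α * β * γ) := by
    rw [norm_sub_sq_real, norm_ten, norm_ten, hx, hy, hz, hx', hy', hz', inner_ten,
      real_inner_comm, real_inner_comm y, real_inner_comm z]
    ring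
  set m := α * β * γ with hm
  have hm1 : m ^ 2 ≤ 1 := by
    have : m ^ 2 = α ^ 2 * (β ^ 2 * γ ^ 2) := by rw [hm]; ring
    rw [this]
    have h2 : β ^ 2 * γ ^ 2 ≤ 1 := mul_le_one₀ hb2 (sq_nonneg _) hc2
    exact mul_le_one₀ ha2 (by positivity) h2
  have hmle : |m| ≤ 1 := by
    rwa [← sq_abs, sq_le_one_iff₀ (abs_nonneg _)] at hm1
  have hm2 := abs_le.mp hmle
  have hpa : ‖x' - α • x‖ ^ 2 = 1 - α ^ 2 := by
    rw [norm_sub_sq_real, hx', norm_smul, hx, inner_smul_right, real_inner_comm, ← hα,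
      Real.norm_eq_abs, mul_one, sq_abs]
    ring
  have hpb : ‖y' - β • y‖ ^ 2 = 1 - β ^ 2 := by
    rw [norm_sub_sq_real, hy', norm_smul, hy, inner_smul_right, real_inner_comm, ← hβ,
      Real.norm_eq_abs, mul_one, sq_abs]
    ring
  have hpc : ‖z' - γ • z‖ ^ 2 = 1 - γ ^ 2 := by
    rw [norm_sub_sq_real, hz', norm_smul, hz, inner_smul_right, real_inner_comm, ← hγ,
      Real.norm_eq_abs, mul_one, sq_abs]
    ring
  have q1 : 1 - α ^ 2 ≤ 2 * (1 - m) := by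
    have h1 : m ^ 2 ≤ α ^ 2 := by
      have e : m ^ 2 = α ^ 2 * (β ^ 2 * γ ^ 2) := by rw [hm]; ring
      rw [e]
      exact mul_le_of_le_one_right (sq_nonneg _) (mul_le_one₀ hb2 (sq_nonneg _) hc2)
    nlinarith
  have q2 : 1 - β ^ 2 ≤ 2 * (1 - m) := by
    have h1 : m ^ 2 ≤ β ^ 2 := by
      have e : m ^ 2 = β ^ 2 * (α ^ 2 * γ ^ 2) := by rw [hm]; ring
      rw [e]
      exact mul_le_of_le_one_right (sq_nonneg _) (mul_le_one₀ ha2 (sq_nonneg _) hc2)
    nlinarith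
  have q3 : 1 - γ ^ 2 ≤ 2 * (1 - m) := by
    have h1 : m ^ 2 ≤ γ ^ 2 := by
      have e : m ^ 2 = γ ^ 2 * (α ^ 2 * β ^ 2) := by rw [hm]; ring
      rw [e]
      exact mul_le_of_le_one_right (sq_nonneg _) (mul_le_one₀ ha2 (sq_nonneg _) hb2)
    nlinarith
  have prod : ∀ s t : ℝ, 0 ≤ s → 0 ≤ t → s ^ 2 ≤ 2 * (1 - m) → t ^ 2 ≤ 2 * (1 - m) →
      s * t ≤ 2 * (1 - m) := by
    intro s t hs ht h1 h2
    nlinarith [sq_nonneg (s - t)]
  have r1 : ‖ten (α • x) (y' - β • y) (z' - γ • z)‖ ≤ 2 * (1 - m) := by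
    rw [norm_ten, norm_smul, hx, mul_one, Real.norm_eq_abs, mul_assoc]
    refine le_trans (mul_le_of_le_one_left (by positivity) ha1) ?_
    apply prod _ _ (norm_nonneg _) (norm_nonneg _)
    · rw [hpb]; exact q2
    · rw [hpc]; exact q3
  have r2 : ‖ten (x' - α • x) (β • y) (z' - γ • z)‖ ≤ 2 * (1 - m) := by
    rw [norm_ten, norm_smul, hy, mul_one, Real.norm_eq_abs]
    have e : ‖x' - α • x‖ * |β| * ‖z' - γ • z‖ = |β| * (‖x' - α • x‖ * ‖z' - γ • z‖) := by ring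
    rw [e]
    refine le_trans (mul_le_of_le_one_left (by positivity) hb1) ?_
    apply prod _ _ (norm_nonneg _) (norm_nonneg _)
    · rw [hpa]; exact q1
    · rw [hpc]; exact q3
  have r3 : ‖ten (x' - α • x) (y' - β • y) (γ • z)‖ ≤ 2 * (1 - m) := by
    rw [norm_ten, norm_smul, hz, mul_one, Real.norm_eq_abs]
    have e : ‖x' - α • x‖ * ‖y' - β • y‖ * |γ| = |γ| * (‖x' - α • x‖ * ‖y' - β • y‖) := by ring
    rw [e]
    refine le_trans (mul_le_of_le_one_left (by positivity) hc1) ?_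
    apply prod _ _ (norm_nonneg _) (norm_nonneg _)
    · rw [hpa]; exact q1
    · rw [hpb]; exact q2
  rw [key, hw]
  have n0 : ‖(2 * (m - 1)) • ten x y z‖ = 2 * (1 - m) := by
    rw [norm_smul, norm_ten, hx, hy, hz, Real.norm_eq_abs, abs_of_nonpos (by linarith)]
    ring
  have n1 : ∀ v : VV, ‖v‖ ≤ 2 * (1 - m) → ‖(2 : ℝ) • v‖ ≤ 2 * (2 * (1 - m)) := by
    intro v hv
    rw [norm_smul, Real.norm_eq_abs, abs_of_pos (by norm_num : (0 : ℝ) < 2)]
    linarith
  calc _ ≤ ‖(2 * (m - 1)) • ten x y z‖ + ‖(2 : ℝ) • ten (α • x) (y' - β • y) (z' - γ • z) +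
        (2 : ℝ) • ten (x' - α • x) (β • y) (z' - γ • z) +
        (2 : ℝ) • ten (x' - α • x) (y' - β • y) (γ • z)‖ := norm_add_le _ _
    _ ≤ 2 * (1 - m) + (2 * (2 * (1 - m)) + 2 * (2 * (1 - m)) + 2 * (2 * (1 - m))) := by
        refine add_le_add (le_of_eq n0) ?_
        refine le_trans (norm_add₃_le) ?_
        exact add_le_add (add_le_add (n1 _ r1) (n1 _ r2)) (n1 _ r3)
    _ = 7 * (2 * (1 - m)) := by ring

end Pool.Agent.X178.Two
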